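import Pool.Agent.K6.H77.KT.Stm

/-!
# Project KT, piece CINV (helper95)
There is no invariant homomorphism on `albKer H` when the cup product is injective.
-/

set_option autoImplicit false

noncomputable section

namespace Pool.Agent.K6.H77.KT

open Pool.Agent.N212.SG

namespace Cinv

theorem comm_aux {G : Type} [Group G] {N : Subgroup G} (h : ∀ x y : G, x * y * (y * x)⁻¹ ∈ N)
    (x y : G) : (y * x)⁻¹ * (x * y) ∈ N := by
  have h1 := h x⁻¹ y⁻¹
  have e : (y * x)⁻¹ * (x * y) = x⁻¹ * y⁻¹ * (y⁻¹ * x⁻¹)⁻¹ := by group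
  rw [e]
  exact h1

/-- A biadditive function on a group. -/
structure Bi (H : Type) [Group H] where
  /-- The function. -/
  ω : H → H → ℂ
  ml : ∀ a b x, ω (a * b) x = ω a x + ω b x
  mr : ∀ a b x, ω x (a * b) = ω x a + ω x b

variable {H : Type} [Group H]

theorem Bi.one_left (b : Bi H) (x : H) : b.ω 1 x = 0 := by
  have := b.ml 1 1 x
  rw [mul_one] at this
  exact left_eq_add.1 this

theorem Bi.one_right (b : Bi H) (x : H) : b.ω x 1 = 0 := by
  have := b.mr 1 1 x
  rw [mul_one] at this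
  exact left_eq_add.1 this

theorem Bi.inv_left (b : Bi H) (a x : H) : b.ω a⁻¹ x = - b.ω a x := by
  have := b.ml a⁻¹ a x
  rw [inv_mul_cancel, b.one_left] at this
  exact eq_neg_of_add_eq_zero_left this.symm

theorem Bi.inv_right (b : Bi H) (a x : H) : b.ω x a⁻¹ = - b.ω x a := by
  have := b.mr a⁻¹ a x
  rw [inv_mul_cancel, b.one_right] at this
  exact eq_neg_of_add_eq_zero_left this.symm

/-- The extension of `H` by `ℂ` with the cocycle `-ω / 2`. -/
@[ext]
structure Ex (b : Bi H) where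
  /-- The central part. -/
  u : ℂ
  /-- The image in `H`. -/
  g : H

instance (b : Bi H) : Mul (Ex b) := ⟨fun x y => ⟨x.u + y.u - b.ω x.g y.g / 2, x.g * y.g⟩⟩
instance (b : Bi H) : One (Ex b) := ⟨⟨0, 1⟩⟩
instance (b : Bi H) : Inv (Ex b) := ⟨fun x => ⟨-x.u - b.ω x.g x.g / 2, x.g⁻¹⟩⟩

theorem mul_u (b : Bi H) (x y : Ex b) : (x * y).u = x.u + y.u - b.ω x.g y.g / 2 := rfl
theorem mul_g (b : Bi H) (x y : Ex b) : (x * y).g = x.g * y.g := rfl
theorem one_u (b : Bi H) : (1 : Ex b).u = 0 := rfl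
theorem one_g (b : Bi H) : (1 : Ex b).g = 1 := rfl
theorem inv_u (b : Bi H) (x : Ex b) : (x⁻¹).u = -x.u - b.ω x.g x.g / 2 := rfl
theorem inv_g (b : Bi H) (x : Ex b) : (x⁻¹).g = x.g⁻¹ := rfl

instance (b : Bi H) : Group (Ex b) :=
  Group.ofLeftAxioms
    (fun x y z => by
      apply Ex.ext
      · simp only [mul_u, mul_g, b.ml, b.mr]
        ring
      · simp only [mul_g, mul_assoc])
    (fun x => by
      apply Ex.ext
      · simp only [mul_u, one_u, one_g, b.one_left]
        ring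
      · simp only [mul_g, one_g, one_mul])
    (fun x => by
      apply Ex.ext
      · simp only [mul_u, inv_u, inv_g, one_u, b.inv_left]
        ring
      · simp only [mul_g, inv_g, one_g, inv_mul_cancel])

/-- The value of `χ` at an element of `albKer`. -/
def val (χ : H1 (albKer H)) (x : H) (hx : x ∈ albKer H) : ℂ := χ (Additive.ofMul ⟨x, hx⟩)

theorem val_mul (χ : H1 (albKer H)) {x y : H} (hx : x ∈ albKer H) (hy : y ∈ albKer H)
    (hxy : x * y ∈ albKer H) : val χ (x * y) hxy = val χ x hx + val χ y hy := by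
  have e : (⟨x * y, hxy⟩ : albKer H) = ⟨x, hx⟩ * ⟨y, hy⟩ := rfl
  unfold val
  rw [e, ofMul_mul, map_add]

theorem val_inv (χ : H1 (albKer H)) {x : H} (hx : x ∈ albKer H) (hx' : x⁻¹ ∈ albKer H) :
    val χ x⁻¹ hx' = - val χ x hx := by
  have e : (⟨x⁻¹, hx'⟩ : albKer H) = ⟨x, hx⟩⁻¹ := rfl
  unfold val
  rw [e, ofMul_inv, map_neg]

theorem val_congr (χ : H1 (albKer H)) {x y : H} (hx : x ∈ albKer H) (h : x = y) :
    val χ x hx = val χ y (h ▸ hx) := by
  subst h; rfl

section
variable (χ : H1 (albKer H))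
  (hχ : ∀ (g : H) (k : albKer H),
      χ (Additive.ofMul ⟨g * k * g⁻¹, (albKer_normal H).conj_mem k k.2 g⟩) =
        χ (Additive.ofMul k))

include hχ

theorem val_conj (g : H) {x : H} (hx : x ∈ albKer H) (hx' : g * x * g⁻¹ ∈ albKer H) :
    val χ (g * x * g⁻¹) hx' = val χ x hx := hχ g ⟨x, hx⟩

/-- The pairing `(g, h) ↦ χ [g, h]`. -/
def bi : Bi H where
  ω g h := val χ (g * h * g⁻¹ * h⁻¹) (comm_mem_albKer g h)
  ml a b x := by
    have hx := comm_mem_albKer b x
    have hx' := (albKer_normal H).conj_mem _ hx a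
    have hy := comm_mem_albKer a x
    have e : a * b * x * (a * b)⁻¹ * x⁻¹ =
        (a * (b * x * b⁻¹ * x⁻¹) * a⁻¹) * (a * x * a⁻¹ * x⁻¹) := by group
    rw [val_congr χ _ e, val_mul χ hx' hy, val_conj χ hχ a hx, add_comm]
  mr a b x := by
    have hx := comm_mem_albKer x b
    have hx' := (albKer_normal H).conj_mem _ hx a
    have hy := comm_mem_albKer x a
    have e : x * (a * b) * x⁻¹ * (a * b)⁻¹ =
        (x * a * x⁻¹ * a⁻¹) * (a * (x * b * x⁻¹ * b⁻¹) * a⁻¹) := by group
    rw [val_congr χ _ e, val_mul χ hy hx', val_conj χ hχ a hx]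

theorem bi_apply (g h : H) :
    (bi χ hχ).ω g h = val χ (g * h * g⁻¹ * h⁻¹) (comm_mem_albKer g h) := rfl

theorem bi_self (g : H) : (bi χ hχ).ω g g = 0 := by
  rw [bi_apply]
  have e : g * g * g⁻¹ * g⁻¹ = 1 := by group
  rw [val_congr χ _ e]
  exact map_zero χ

theorem bi_symm (g h : H) : (bi χ hχ).ω h g = - (bi χ hχ).ω g h := by
  have h1 := bi_self χ hχ (g * h)
  rw [(bi χ hχ).ml, (bi χ hχ).mr, (bi χ hχ).mr, bi_self, bi_self] at h1
  linear_combination h1

theorem bi_right {g k : H} (hk : k ∈ albKer H) : (bi χ hχ).ω g k = 0 := by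
  rw [bi_apply, val_mul χ ((albKer_normal H).conj_mem _ hk g) ((albKer H).inv_mem hk),
    val_conj χ hχ g hk, val_inv χ hk, add_neg_cancel]

theorem bi_left {g k : H} (hk : k ∈ albKer H) : (bi χ hχ).ω k g = 0 := by
  rw [bi_symm, bi_right χ hχ hk, neg_zero]

/-- The graph of `-χ`. -/
def N : Subgroup (Ex (bi χ hχ)) where
  carrier := {x | ∃ h : x.g ∈ albKer H, x.u = - val χ x.g h}
  one_mem' := ⟨(albKer H).one_mem, by
    rw [one_u]
    have : val χ (1 : Ex (bi χ hχ)).g (albKer H).one_mem = 0 := map_zero χ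
    rw [this, neg_zero]⟩
  mul_mem' := by
    rintro x y ⟨hx, hx'⟩ ⟨hy, hy'⟩
    refine ⟨(albKer H).mul_mem hx hy, ?_⟩
    rw [mul_u, hx', hy', bi_right χ hχ hy]
    have := val_mul χ hx hy ((albKer H).mul_mem hx hy)
    change _ = - val χ (x.g * y.g) _
    rw [this]
    ring
  inv_mem' := by
    rintro x ⟨hx, hx'⟩
    refine ⟨(albKer H).inv_mem hx, ?_⟩
    rw [inv_u, hx', bi_self]
    change _ = - val χ (x.g⁻¹) _
    rw [val_inv χ hx]
    ring

theorem N_comm (x y : Ex (bi χ hχ)) : x * y * (y * x)⁻¹ ∈ N χ hχ := by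
  have hc := comm_mem_albKer x.g y.g
  have e : (x * y * (y * x)⁻¹).g = x.g * y.g * x.g⁻¹ * y.g⁻¹ := by
    simp only [mul_g, inv_g, mul_inv_rev]
    group
  refine ⟨by rw [e]; exact hc, ?_⟩
  rw [val_congr χ _ e, ← bi_apply χ hχ]
  simp only [mul_u, mul_g, inv_u, inv_g, (bi χ hχ).ml, (bi χ hχ).mr, (bi χ hχ).inv_right,
    bi_self, bi_symm χ hχ x.g y.g, (bi χ hχ).inv_left, mul_inv_rev]
  ring

instance N_normal : (N χ hχ).Normal where
  conj_mem n hn g := by
    have h1 := N_comm χ hχ g n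
    have e : g * n * g⁻¹ = (g * n * (n * g)⁻¹) * n := by group
    rw [e]
    exact (N χ hχ).mul_mem h1 hn

end

end Cinv

open Cinv in
theorem cinv : S_CINV := by
  intro H _ hcup χ hχ
  let E := Ex (bi χ hχ)
  let Q := E ⧸ N χ hχ
  have hcomm : ∀ a b : Q, a * b = b * a := by
    intro a b
    induction a using QuotientGroup.induction_on with
    | H x =>
      induction b using QuotientGroup.induction_on with
      | H y =>
        rw [← QuotientGroup.mk_mul, ← QuotientGroup.mk_mul]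
        symm
        rw [QuotientGroup.eq]
        exact comm_aux (N_comm χ hχ) x y
  let _ : CommGroup Q := { (inferInstance : Group Q) with mul_comm := hcomm }
  let i : ℂ →+ Additive Q := AddMonoidHom.mk' (fun u => Additive.ofMul (QuotientGroup.mk (⟨u, 1⟩ : E)))
    (by
      intro u v
      rw [← ofMul_mul, ← QuotientGroup.mk_mul]
      congr 2
      apply Ex.ext
      · rw [mul_u]
        simp only [(bi χ hχ).one_left]
        ring
      · rw [mul_g, mul_one])
  have hi : Function.Injective i := by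
    rw [injective_iff_map_eq_zero]
    intro u hu
    have h1 : (QuotientGroup.mk (⟨u, 1⟩ : E) : Q) = 1 := hu
    rw [QuotientGroup.eq_one_iff] at h1
    obtain ⟨h2, h3⟩ := h1
    have h4 : val χ (1 : H) h2 = 0 := map_zero χ
    change u = - val χ (1 : H) h2 at h3
    rw [h3, h4, neg_zero]
  obtain ⟨r, hr⟩ : ∃ r : Additive Q →+ ℂ, ∀ u, r (i u) = u := by
    have hB : Module.Baer ℤ ℂ := Module.Baer.of_divisible ℂ
    obtain ⟨h, hh⟩ := Module.Baer.extension_property hB i.toIntLinearMap hi LinearMap.id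
    refine ⟨h.toAddMonoidHom, fun u => ?_⟩
    exact LinearMap.congr_fun hh u
  let m : E → Additive Q := fun x => Additive.ofMul (QuotientGroup.mk x)
  have hm : ∀ x y : E, m (x * y) = m x + m y := fun x y => rfl
  have hr1 : ∀ (u : ℂ) (g : H), r (m ⟨u, g⟩) = u + r (m ⟨0, g⟩) := by
    intro u g
    have e : (⟨u, g⟩ : E) = ⟨u, 1⟩ * ⟨0, g⟩ := by
      apply Ex.ext
      · rw [mul_u]
        simp only [(bi χ hχ).one_left]
        ring
      · rw [mul_g, one_mul]
    rw [e, hm, map_add]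
    congr 1
    exact hr u
  let c : H → ℂ := fun g => r (m ⟨0, g⟩)
  have hc : ∀ a b, c (a * b) = c a + c b + (bi χ hχ).ω a b / 2 := by
    intro a b
    have h1 : m (⟨0, a⟩ * ⟨0, b⟩ : E) = m ⟨0, a⟩ + m ⟨0, b⟩ := hm _ _
    have e : (⟨0, a⟩ * ⟨0, b⟩ : E) = ⟨-((bi χ hχ).ω a b / 2), a * b⟩ := by
      apply Ex.ext
      · rw [mul_u]
        ring
      · rfl
    rw [e] at h1
    have h2 := congrArg r h1
    rw [hr1, map_add] at h2
    change r (m ⟨0, a * b⟩) = r (m ⟨0, a⟩) + r (m ⟨0, b⟩) + _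
    linear_combination h2
  have hck : ∀ (k : H) (hk : k ∈ albKer H), c k = val χ k hk := by
    intro k hk
    have h1 : m (⟨- val χ k hk, k⟩ : E) = 0 := by
      change (QuotientGroup.mk (⟨- val χ k hk, k⟩ : E) : Q) = 1
      rw [QuotientGroup.eq_one_iff]
      exact ⟨hk, rfl⟩
    have h2 := hr1 (- val χ k hk) k
    rw [h1, map_zero] at h2
    change r (m ⟨0, k⟩) = _
    linear_combination -h2
  have hω := hcup (fun a b => (bi χ hχ).ω a b / 2) c
    (fun a b x => by simp only [(bi χ hχ).ml]; ring)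
    (fun a b x => by simp only [(bi χ hχ).mr]; ring)
    (fun a => by simp only [bi_self, zero_div]) hc
  let f : H1 H := AddMonoidHom.mk' (fun g => c (Additive.toMul g)) (by
    intro a b
    change c (Additive.toMul a * Additive.toMul b) = _
    rw [hc, hω, add_zero])
  refine AddMonoidHom.ext fun k => ?_
  let k' : albKer H := Additive.toMul k
  have h1 := k'.2 f
  have h2 := hck k' k'.2
  have h3 : c k' = 0 := h1
  rw [h3] at h2
  exact h2.symm

end Pool.Agent.K6.H77.KT
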