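import Pool.Agent.K6.H77.KT.Stm
import Pool.Agent.N615.SG_RES

/-!
# Project KT (helper77), piece EIG: common eigenvector of an abelian group (helper45)
-/

set_option autoImplicit false

namespace Pool.Agent.K6.H77.KT

open Pool.Agent.N212.SG

/-- The action of `g` on `H¹(K, ℂ)` by conjugation. -/
def act {H : Type} [Group H] (K : Subgroup H) (hK : K.Normal) (g : H) : H1 K →ₗ[ℂ] H1 K where
  toFun χ :=
    { toFun := fun k => χ (Additive.ofMul ⟨g * (Additive.toMul k : K) * g⁻¹,
        hK.conj_mem _ (Additive.toMul k).2 g⟩)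
      map_zero' := by
        have : (⟨g * ((Additive.toMul (0 : Additive K) : K) : H) * g⁻¹,
            hK.conj_mem _ (Additive.toMul (0 : Additive K)).2 g⟩ : K) = 1 := by
          apply Subtype.ext
          simp
        rw [this, ofMul_one, map_zero]
      map_add' := fun a b => by
        rw [← map_add, ← ofMul_mul]
        congr 2
        apply Subtype.ext
        simp [mul_assoc] }
  map_add' _ _ := rfl
  map_smul' _ _ := rfl

theorem act_apply {H : Type} [Group H] (K : Subgroup H) (hK : K.Normal) (g : H) (χ : H1 K)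
    (k : K) : act K hK g χ (Additive.ofMul k) =
      χ (Additive.ofMul ⟨g * k * g⁻¹, hK.conj_mem k k.2 g⟩) := rfl

theorem act_mul {H : Type} [Group H] (K : Subgroup H) (hK : K.Normal) (g h : H) (χ : H1 K) :
    act K hK (g * h) χ = act K hK h (act K hK g χ) := by
  refine AddMonoidHom.ext fun x => ?_
  obtain ⟨k, rfl⟩ := Additive.ofMul.surjective x
  rw [act_apply, act_apply, act_apply]
  congr 2
  apply Subtype.ext
  simp [mul_assoc]

theorem act_one {H : Type} [Group H] (K : Subgroup H) (hK : K.Normal) (χ : H1 K) :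
    act K hK 1 χ = χ := by
  refine AddMonoidHom.ext fun x => ?_
  obtain ⟨k, rfl⟩ := Additive.ofMul.surjective x
  rw [act_apply]
  congr 2
  apply Subtype.ext
  simp

theorem act_self {H : Type} [Group H] (K : Subgroup H) (hK : K.Normal) (c : K) (χ : H1 K) :
    act K hK (c : H) χ = χ := by
  refine AddMonoidHom.ext fun x => ?_
  obtain ⟨k, rfl⟩ := Additive.ofMul.surjective x
  rw [act_apply]
  have h1 : (⟨(c : H) * k * (c : H)⁻¹, hK.conj_mem k k.2 c⟩ : K) = c * k * c⁻¹ := by
    apply Subtype.ext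
    simp
  rw [h1, ofMul_mul, ofMul_mul, ofMul_inv, map_add, map_add, map_neg]
  ring

theorem act_comm {H : Type} [Group H] (K : Subgroup H) (hK : K.Normal)
    (hab : ∀ g h : H, g * h * g⁻¹ * h⁻¹ ∈ K) (g h : H) (χ : H1 K) :
    act K hK g (act K hK h χ) = act K hK h (act K hK g χ) := by
  rw [← act_mul, ← act_mul]
  have h1 : h * g = ((⟨h * g * h⁻¹ * g⁻¹, hab h g⟩ : K) : H) * (g * h) := by
    simp [mul_assoc]
  rw [h1, act_mul, act_self]

/-- EIG. Common eigenvector. -/
theorem eig : Pool.Agent.N212.SG.S_EIG.{0} := by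
  intro H _ K hK hfg hab hne
  have : Group.FG K := (Group.fg_iff_subgroup_fg K).2 hfg
  have := Pool.Agent.N615.SG.fin K ‹_›
  classical
  -- nonzero invariant submodules
  let P : ℕ → Prop := fun n => ∃ W : Submodule ℂ (H1 K), W ≠ ⊥ ∧ Module.finrank ℂ W = n ∧
    ∀ g : H, ∀ χ ∈ W, act K hK g χ ∈ W
  have hP : ∃ n, P n := by
    obtain ⟨f, hf⟩ := hne
    refine ⟨_, ⊤, ?_, rfl, fun _ _ _ => Submodule.mem_top⟩
    intro h
    exact hf ((Submodule.eq_bot_iff _).1 h f Submodule.mem_top)
  obtain ⟨W, hW, hWn, hWi⟩ := Nat.find_spec hP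
  -- every element of `W` is a common eigenvector
  have key : ∀ g : H, ∃ μ : ℂ, ∀ χ ∈ W, act K hK g χ = μ • χ := by
    intro g
    have : Nontrivial W := Submodule.nontrivial_iff_ne_bot.2 hW
    let T : W →ₗ[ℂ] W := (act K hK g).restrict (hWi g)
    obtain ⟨μ, hμ⟩ := Module.End.exists_eigenvalue (K := ℂ) T
    obtain ⟨v, hv⟩ := hμ.exists_hasEigenvector
    refine ⟨μ, ?_⟩
    let W' : Submodule ℂ (H1 K) := W ⊓ LinearMap.ker (act K hK g - μ • LinearMap.id)
    have hW'i : ∀ h : H, ∀ χ ∈ W', act K hK h χ ∈ W' := by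
      intro h χ hχ
      obtain ⟨h1, h2⟩ := Submodule.mem_inf.1 hχ
      rw [LinearMap.mem_ker, LinearMap.sub_apply, sub_eq_zero, LinearMap.smul_apply,
        LinearMap.id_apply] at h2
      refine Submodule.mem_inf.2 ⟨hWi h χ h1, ?_⟩
      rw [LinearMap.mem_ker, LinearMap.sub_apply, sub_eq_zero, LinearMap.smul_apply,
        LinearMap.id_apply, act_comm K hK hab g h χ, h2, map_smul]
    have hvv : ((v : W) : H1 K) ∈ W' := by
      refine Submodule.mem_inf.2 ⟨v.2, ?_⟩
      rw [LinearMap.mem_ker, LinearMap.sub_apply, sub_eq_zero, LinearMap.smul_apply,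
        LinearMap.id_apply]
      have h3 := hv.apply_eq_smul
      have h4 := congrArg (Subtype.val) h3
      exact h4
    have hW' : W' ≠ ⊥ := by
      intro h
      rw [h, Submodule.mem_bot] at hvv
      exact hv.2 (Subtype.ext hvv)
    have h5 : Nat.find hP ≤ Module.finrank ℂ W' := Nat.find_min' hP ⟨W', hW', rfl, hW'i⟩
    have h6 : W' = W := Submodule.eq_of_le_of_finrank_le inf_le_left (by rw [hWn]; exact h5)
    intro χ hχ
    rw [← h6] at hχ
    obtain ⟨-, h2⟩ := Submodule.mem_inf.1 hχ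
    rwa [LinearMap.mem_ker, LinearMap.sub_apply, sub_eq_zero, LinearMap.smul_apply,
        LinearMap.id_apply] at h2
  obtain ⟨χ, hχ, hχ0⟩ := Submodule.exists_mem_ne_zero_of_ne_bot hW
  choose l hl using key
  have hinj : ∀ a b : ℂ, a • χ = b • χ → a = b := fun a b hab => smul_left_injective ℂ hχ0 hab
  refine ⟨χ, ⟨⟨l, ?_⟩, ?_⟩, hχ0, ?_⟩
  · apply hinj
    rw [← hl 1 χ hχ, act_one, one_smul]
  · intro g h
    apply hinj
    rw [← hl (g * h) χ hχ, act_mul, hl g χ hχ, map_smul, hl h χ hχ, smul_smul]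
  · intro g k
    have := congrArg (fun f : H1 K => f (Additive.ofMul k)) (hl g χ hχ)
    simpa [act_apply] using this

end Pool.Agent.K6.H77.KT
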