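import Pool.Agent.K6.H77.KT.Quot

/-!
# Project KT (helper77): leaf FSOL
-/

set_option autoImplicit false

namespace Pool.Agent.K6.H77.KT

open Pool.Agent.N212.SG

open Pool.Agent.K6.H86.QS (FAb)

theorem fsol : S_FSOL := by
  intro K _ hfg ⟨n, hn⟩ hfab
  induction n generalizing K with
  | zero =>
    have h1 : (⊤ : Subgroup K) = ⊥ := hn
    have h2 : Subsingleton K := ⟨fun a b => by
      have ha : a ∈ (⊤ : Subgroup K) := Subgroup.mem_top a
      have hb : b ∈ (⊤ : Subgroup K) := Subgroup.mem_top b
      rw [h1, Subgroup.mem_bot] at ha hb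
      rw [ha, hb]⟩
    exact Finite.of_subsingleton
  | succ n ih =>
    have hF : FAb K := hfab
    have hfi : (commutator K).FiniteIndex := by
      refine Pool.Agent.N987.QS.t_FAB K (commutator K) hfg (fun a b => ?_) (fun f _ => hF.zero f)
      rw [commutator_def, ← commutatorElement_def]
      exact Subgroup.commutator_mem_commutator (Subgroup.mem_top a) (Subgroup.mem_top b)
    have hfg' : Group.FG (commutator K) := Subgroup.fg_of_index_ne_zero _
    have hs : ∀ m : ℕ, dser (⊤ : Subgroup K) (m + 1) = dser (commutator K) m := by
      intro m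
      induction m with
      | zero => rfl
      | succ m ihm =>
        change ⁅dser (⊤ : Subgroup K) (m + 1), dser (⊤ : Subgroup K) (m + 1)⁆ = _
        rw [ihm]
        rfl
    have h1 : dser (⊤ : Subgroup (commutator K)) n = ⊥ := by
      have h2 : (dser (⊤ : Subgroup (commutator K)) n).map (commutator K).subtype = ⊥ := by
        rw [dser_map, ← MonoidHom.range_eq_map, Subgroup.range_subtype, ← hs, hn]
      rwa [Subgroup.map_eq_bot_iff_of_injective _ (commutator K).subtype_injective] at h2
    have h3 : Finite (commutator K) := ih (commutator K) hfg' h1 (hF.sub hfi)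
    have h4 : Finite (K ⧸ commutator K) := Subgroup.finite_quotient_of_finiteIndex
    exact Finite.of_equiv _ (Subgroup.groupEquivQuotientProdSubgroup (s := commutator K)).symm

end Pool.Agent.K6.H77.KT
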