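import Pool.Agent.K6.H77.KT.Stm
import Pool.Agent.Rep463.FinQuot
import Pool.Agent.K7.H41.OP.FIN

/-!
Job HALL: finitely generated virtually solvable groups in which the commutators of the elements of
a subgroup of finite index lie in all normal subgroups of finite index are residually finite.
-/

set_option autoImplicit false

namespace Pool.Agent.K6.H77.KT

namespace Hall

open scoped commutatorElement

/-- finitely generated abelian groups are residually finite -/
theorem rf_ab (A : Type) [Group A] (hc : ∀ a b : A, a * b = b * a) [hA : Group.FG A] (x : A)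
    (hx : x ≠ 1) : ∃ L : Subgroup A, L.FiniteIndex ∧ x ∉ L := by
  have hcb : commutator A = ⊥ := by
    rw [commutator_def, Subgroup.commutator_eq_bot_iff_le_centralizer]
    intro a _ b _
    exact hc b a
  obtain ⟨m, hm, hP⟩ := Pool.Agent.K7.H41.OP.rfa A hA x (by rwa [hcb, Subgroup.mem_bot])
  let _ : CommGroup A := { (inferInstance : Group A) with mul_comm := hc }
  refine ⟨(powMonoidHom m : A →* A).range, ?_, ?_⟩
  · have hfg : Group.FG (A ⧸ (powMonoidHom m : A →* A).range) := inferInstance
    have htor : IsMulTorsion (A ⧸ (powMonoidHom m : A →* A).range) := by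
      intro y
      obtain ⟨y, rfl⟩ := QuotientGroup.mk_surjective y
      rw [isOfFinOrder_iff_pow_eq_one]
      refine ⟨m, hm, ?_⟩
      rw [← QuotientGroup.mk_pow, QuotientGroup.eq_one_iff]
      exact ⟨y, rfl⟩
    have hfin : Finite (A ⧸ (powMonoidHom m : A →* A).range) :=
      CommGroup.finite_of_fg_isMulTorsion _ htor
    exact Subgroup.finiteIndex_of_finite_quotient
  · rintro ⟨y, hy⟩
    apply hP
    refine ⟨y, ?_⟩
    rw [hcb, Subgroup.mem_bot, mul_inv_eq_one]
    exact hy.symm

/-- finitely generated virtually abelian groups are residually finite -/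
theorem rf_vab (G : Type) [Group G] [Group.FG G] (Z : Subgroup G) (hZ : Z.FiniteIndex)
    (hc : ∀ a ∈ Z, ∀ b ∈ Z, a * b = b * a) (x : G) (hx : x ≠ 1) :
    ∃ M : Subgroup G, M.Normal ∧ M.FiniteIndex ∧ x ∉ M := by
  suffices h : ∃ L : Subgroup G, L.FiniteIndex ∧ x ∉ L by
    obtain ⟨L, hL, hxL⟩ := h
    exact ⟨L.normalCore, inferInstance, inferInstance, fun h => hxL (L.normalCore_le h)⟩
  by_cases hxZ : x ∈ Z
  · obtain ⟨L, hL, hxL⟩ := rf_ab Z (fun a b => Subtype.ext (hc a a.2 b b.2)) ⟨x, hxZ⟩
      (fun h => hx (congrArg Subtype.val h))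
    refine ⟨L.map Z.subtype, ⟨?_⟩, ?_⟩
    · rw [Subgroup.index_map_subtype]
      exact mul_ne_zero hL.index_ne_zero hZ.index_ne_zero
    · rintro ⟨y, hy, hyx⟩
      have : y = ⟨x, hxZ⟩ := Subtype.ext hyx
      exact hxL (this ▸ hy)
  · exact ⟨Z, hZ, hxZ⟩

theorem ft_int {R : Type} [CommRing R] (i : Algebra ℤ R) (h : @Algebra.FiniteType ℤ R _ _ i) :
    @Algebra.FiniteType ℤ R _ _ (Ring.toIntAlgebra R) := by
  have : i = Ring.toIntAlgebra R := Subsingleton.elim _ _
  rw [← this]
  exact h

/-- a nonzero finite module over a ring of finite type has a proper submodule of finite index -/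
theorem exists_finite_quot (R : Type) [CommRing R] [Algebra.FiniteType ℤ R] (M : Type)
    [AddCommGroup M] [Module R M] [Module.Finite R M] [Nontrivial M] :
    ∃ N : Submodule R M, N ≠ ⊤ ∧ Finite (M ⧸ N) := by
  obtain ⟨N, hN, -⟩ := (eq_top_or_exists_le_coatom (⊥ : Submodule R M)).resolve_left bot_ne_top
  have hs : IsSimpleModule R (M ⧸ N) := isSimpleModule_iff_isCoatom.2 hN
  obtain ⟨I, hI, ⟨e⟩⟩ := isSimpleModule_iff_quot_maximal.1 hs
  have hf := (Pool.Agent.Rep463.Rep463FR.finite_quotient I hI 1 one_pos).1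
  rw [pow_one] at hf
  exact ⟨N, hN.1, Finite.of_equiv _ e.symm.toEquiv⟩

theorem fi_comap {G H : Type} [Group G] [Group H] (q : G →* H) (M : Subgroup H)
    [hM : M.FiniteIndex] : (M.comap q).FiniteIndex := by
  have h1 : ((QuotientGroup.mk' M.normalCore).comp q).ker.FiniteIndex := inferInstance
  refine Subgroup.finiteIndex_of_le (H := ((QuotientGroup.mk' M.normalCore).comp q).ker) ?_
  intro g hg
  rw [MonoidHom.mem_ker, MonoidHom.comp_apply] at hg
  exact M.normalCore_le ((QuotientGroup.eq_one_iff _).1 hg)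

section met

variable {U : Type} [Group U]

/-- the derived subgroup, written additively -/
def Md (_hab : ∀ a ∈ commutator U, ∀ b ∈ commutator U, a * b = b * a) : Type :=
  Additive (commutator U)

variable (hab : ∀ a ∈ commutator U, ∀ b ∈ commutator U, a * b = b * a)

instance : AddCommGroup (Md hab) :=
  { (inferInstance : AddGroup (Additive (commutator U))) with
    add_comm := fun a b => congrArg Additive.ofMul
      (Subtype.ext (hab (Additive.toMul a : commutator U) (Additive.toMul a : commutator U).2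
        (Additive.toMul b : commutator U) (Additive.toMul b : commutator U).2)) }

/-- the element of the module -/
def el (a : U) (ha : a ∈ commutator U) : Md hab := Additive.ofMul ⟨a, ha⟩

theorem el_surj (x : Md hab) : ∃ a : U, ∃ ha : a ∈ commutator U, el hab a ha = x :=
  ⟨(Additive.toMul x : commutator U), (Additive.toMul x : commutator U).2, rfl⟩

theorem el_add {a b : U} (ha : a ∈ commutator U) (hb : b ∈ commutator U) :
    el hab a ha + el hab b hb = el hab (a * b) (mul_mem ha hb) := rfl

theorem el_neg {a : U} (ha : a ∈ commutator U) :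
    - el hab a ha = el hab a⁻¹ (inv_mem ha) := rfl

theorem el_one : el hab 1 (one_mem _) = 0 := rfl

theorem el_eq_zero {a : U} (ha : a ∈ commutator U) (h : el hab a ha = 0) : a = 1 :=
  congrArg (fun x : Additive (commutator U) => ((Additive.toMul x : commutator U) : U)) h

theorem conj_mem_comm (g : U) {a : U} (ha : a ∈ commutator U) : g * a * g⁻¹ ∈ commutator U :=
  (inferInstance : (commutator U).Normal).conj_mem a ha g

/-- the action of `U` on its derived subgroup -/
def act : U →* Module.End ℤ (Md hab) where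
  toFun g := AddMonoidHom.toIntLinearMap
    { toFun := fun x => el hab (g * (Additive.toMul x : commutator U) * g⁻¹)
        (conj_mem_comm g (Additive.toMul x : commutator U).2)
      map_zero' := by
        refine Eq.trans ?_ (el_one hab)
        congr 1
        change g * (1 : U) * g⁻¹ = 1
        group
      map_add' := by
        intro x y
        rw [el_add]
        congr 1
        change g * ((Additive.toMul x : commutator U) * (Additive.toMul y : commutator U) : U) * g⁻¹
          = _
        group }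
  map_one' := by
    ext x
    obtain ⟨a, ha, rfl⟩ := el_surj hab x
    change el hab (1 * a * 1⁻¹) _ = el hab a ha
    congr 1
    group
  map_mul' g h := by
    ext x
    obtain ⟨a, ha, rfl⟩ := el_surj hab x
    change el hab (g * h * a * (g * h)⁻¹) _ = el hab (g * (h * a * h⁻¹) * g⁻¹) _
    congr 1
    group

theorem act_el (g a : U) (ha : a ∈ commutator U) :
    act hab g (el hab a ha) = el hab (g * a * g⁻¹) (conj_mem_comm g ha) := rfl

/-- the action of the abelianization -/
def rep : Abelianization U →* Module.End ℤ (Md hab) :=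
  QuotientGroup.lift (commutator U) (act hab) (by
    intro c hc
    rw [MonoidHom.mem_ker]
    ext x
    obtain ⟨a, ha, rfl⟩ := el_surj hab x
    rw [act_el]
    change _ = el hab a ha
    congr 1
    rw [hab c hc a ha]
    group)

noncomputable instance : Module (MonoidAlgebra ℤ (Abelianization U)) (Md hab) :=
  Module.compHom _ (MonoidAlgebra.lift ℤ (Module.End ℤ (Md hab)) (Abelianization U)
    (rep hab)).toRingHom

theorem of_smul (g a : U) (ha : a ∈ commutator U) :
    (MonoidAlgebra.of ℤ (Abelianization U) (Abelianization.of g)) • el hab a ha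
      = el hab (g * a * g⁻¹) (conj_mem_comm g ha) := by
  change (MonoidAlgebra.lift ℤ (Module.End ℤ (Md hab)) (Abelianization U) (rep hab)
    (MonoidAlgebra.of ℤ (Abelianization U) (Abelianization.of g))) (el hab a ha) = _
  rw [MonoidAlgebra.lift_of]
  rfl

/-- the normal subgroup of a submodule -/
def PS (N : Submodule (MonoidAlgebra ℤ (Abelianization U)) (Md hab)) : Subgroup U where
  carrier := {a | ∃ ha : a ∈ commutator U, el hab a ha ∈ N}
  one_mem' := ⟨one_mem _, by rw [el_one]; exact zero_mem _⟩
  mul_mem' := by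
    rintro a b ⟨ha, ha1⟩ ⟨hb, hb1⟩
    exact ⟨mul_mem ha hb, by rw [← el_add hab ha hb]; exact add_mem ha1 hb1⟩
  inv_mem' := by
    rintro a ⟨ha, ha1⟩
    exact ⟨inv_mem ha, by rw [← el_neg hab ha]; exact neg_mem ha1⟩

theorem mem_PS {N : Submodule (MonoidAlgebra ℤ (Abelianization U)) (Md hab)} {a : U} :
    a ∈ PS hab N ↔ ∃ ha : a ∈ commutator U, el hab a ha ∈ N := Iff.rfl

theorem PS_normal (N : Submodule (MonoidAlgebra ℤ (Abelianization U)) (Md hab)) :
    (PS hab N).Normal := by
  refine ⟨fun a ha g => ?_⟩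
  obtain ⟨ha, h1⟩ := ha
  refine ⟨conj_mem_comm g ha, ?_⟩
  rw [← of_smul hab g a ha]
  exact N.smul_mem _ h1

/-- if the commutators of the generators are in a normal subgroup, so are all commutators -/
theorem comm_le {X : Set U} (hX : Subgroup.closure X = ⊤) (P : Subgroup U) [hP : P.Normal]
    (h : ∀ x ∈ X, ∀ y ∈ X, ⁅x, y⁆ ∈ P) : commutator U ≤ P := by
  have h1 : ∀ x ∈ X, ∀ g : U, ⁅x, g⁆ ∈ P := by
    intro x hx
    have : (⊤ : Subgroup U) ≤ (Subgroup.centralizer {(QuotientGroup.mk' P x)}).comap
        (QuotientGroup.mk' P) := by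
      rw [← hX, Subgroup.closure_le]
      intro y hy
      rw [SetLike.mem_coe, Subgroup.mem_comap, Subgroup.mem_centralizer_iff]
      intro z hz
      rw [Set.mem_singleton_iff] at hz
      rw [hz, ← map_mul, ← map_mul]
      have h2 := (QuotientGroup.eq_one_iff _).2 (h x hx y hy)
      change QuotientGroup.mk' P ⁅x, y⁆ = 1 at h2
      rw [map_commutatorElement, commutatorElement_eq_one_iff_mul_comm, ← map_mul, ← map_mul] at h2
      exact h2
    intro g
    have h2 := this (Subgroup.mem_top g)
    rw [Subgroup.mem_comap, Subgroup.mem_centralizer_iff] at h2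
    have h3 := h2 _ (Set.mem_singleton _)
    refine (QuotientGroup.eq_one_iff _).1 ?_
    change QuotientGroup.mk' P ⁅x, g⁆ = 1
    rw [map_commutatorElement, commutatorElement_eq_one_iff_mul_comm]
    exact h3
  have h4 : (⊤ : Subgroup U) ≤ (Subgroup.center (U ⧸ P)).comap (QuotientGroup.mk' P) := by
    rw [← hX, Subgroup.closure_le]
    intro x hx
    rw [SetLike.mem_coe, Subgroup.mem_comap, Subgroup.mem_center_iff]
    intro g
    obtain ⟨g, rfl⟩ := QuotientGroup.mk'_surjective P g
    have h2 := (QuotientGroup.eq_one_iff _).2 (h1 x hx g)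
    change QuotientGroup.mk' P ⁅x, g⁆ = 1 at h2
    rw [map_commutatorElement, commutatorElement_eq_one_iff_mul_comm] at h2
    exact h2.symm
  rw [commutator_def, Subgroup.commutator_le]
  intro g _ k _
  refine (QuotientGroup.eq_one_iff _).1 ?_
  change QuotientGroup.mk' P ⁅g, k⁆ = 1
  rw [map_commutatorElement, commutatorElement_eq_one_iff_mul_comm]
  exact ((Subgroup.mem_center_iff.1 (h4 (Subgroup.mem_top g))) _).symm

theorem finite_module [hU : Group.FG U] :
    Module.Finite (MonoidAlgebra ℤ (Abelianization U)) (Md hab) := by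
  classical
  obtain ⟨X, hX⟩ := hU.out
  let f : U → U → Md hab := fun x y => el hab ⁅x, y⁆ (Subgroup.commutator_mem_commutator
    (Subgroup.mem_top x) (Subgroup.mem_top y))
  refine ⟨⟨Finset.image (fun p : U × U => f p.1 p.2) (X ×ˢ X), ?_⟩⟩
  set N := Submodule.span (MonoidAlgebra ℤ (Abelianization U))
    (↑(Finset.image (fun p : U × U => f p.1 p.2) (X ×ˢ X)) : Set (Md hab)) with hN
  have hPn : (PS hab N).Normal := PS_normal hab N
  have h1 : commutator U ≤ PS hab N := by
    refine comm_le hX (PS hab N) fun x hx y hy => ?_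
    refine ⟨Subgroup.commutator_mem_commutator (Subgroup.mem_top x) (Subgroup.mem_top y), ?_⟩
    refine Submodule.subset_span ?_
    rw [Finset.coe_image]
    exact ⟨(x, y), by simpa using ⟨hx, hy⟩, rfl⟩
  rw [eq_top_iff]
  intro z _
  obtain ⟨a, ha, rfl⟩ := el_surj hab z
  exact (h1 ha).2

include hab in
/-- the main step: finitely generated metabelian groups -/
theorem met [hU : Group.FG U] (hne : commutator U ≠ ⊥) :
    ∃ M : Subgroup U, M.Normal ∧ M.FiniteIndex ∧ ¬ commutator U ≤ M := by
  have hnt : Nontrivial (Md hab) := by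
    obtain ⟨a, ha, ha1⟩ := (Subgroup.ne_bot_iff_exists_ne_one).1 hne |>.elim
      (fun x hx => (⟨x.1, x.2, fun h => hx (Subtype.ext h)⟩ :
        ∃ a : U, a ∈ commutator U ∧ a ≠ 1))
    exact ⟨el hab a ha, 0, fun h => ha1 (el_eq_zero hab ha h)⟩
  have hfm := finite_module hab
  have hfg : Monoid.FG (Abelianization U) := by
    have : Group.FG (Abelianization U) := inferInstanceAs (Group.FG (U ⧸ commutator U))
    exact Group.fg_iff_monoid_fg.1 this
  have hft0 : Algebra.FiniteType ℤ (MonoidAlgebra ℤ (Abelianization U)) :=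
    MonoidAlgebra.finiteType_of_fg
  have hft := ft_int (R := MonoidAlgebra ℤ (Abelianization U)) _ hft0
  obtain ⟨N, hN, hfin⟩ := exists_finite_quot (MonoidAlgebra ℤ (Abelianization U)) (Md hab)
  have hPn : (PS hab N).Normal := PS_normal hab N
  obtain ⟨q, hq⟩ : ∃ q, q = QuotientGroup.mk' (PS hab N) := ⟨_, rfl⟩
  -- the derived subgroup of the quotient is finite
  have hfin2 : (Set.range fun a : commutator U => q (a : U)).Finite := by
    let g : (Md hab ⧸ N) → (U ⧸ PS hab N) := fun z =>
      q ((Additive.toMul (Quotient.out z : Md hab) : commutator U) : U)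
    refine (Set.finite_range g).subset ?_
    rintro _ ⟨⟨a, ha⟩, rfl⟩
    refine ⟨Submodule.Quotient.mk (el hab a ha), ?_⟩
    obtain ⟨b, hb, hb1⟩ := el_surj hab (Quotient.out (Submodule.Quotient.mk (p := N) (el hab a ha)))
    change q ((Additive.toMul (Quotient.out (Submodule.Quotient.mk (p := N) (el hab a ha)) :
      Md hab) : commutator U) : U) = q a
    rw [← hb1]
    change q b = q a
    have h2 : (Submodule.Quotient.mk (p := N) (el hab b hb)) =
        Submodule.Quotient.mk (p := N) (el hab a ha) := by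
      rw [hb1]
      exact Quotient.out_eq _
    rw [Submodule.Quotient.eq, sub_eq_add_neg, el_neg, el_add] at h2
    rw [hq]
    have h3 : b * a⁻¹ ∈ PS hab N := ⟨_, h2⟩
    rw [← mul_inv_eq_one, ← map_inv, ← map_mul]
    exact (QuotientGroup.eq_one_iff _).2 h3
  have hcs : Finite (commutatorSet (U ⧸ PS hab N)) := by
    refine Set.Finite.to_subtype (hfin2.subset ?_)
    rintro _ ⟨x, y, rfl⟩
    obtain ⟨x, rfl⟩ := QuotientGroup.mk'_surjective _ x
    obtain ⟨y, rfl⟩ := QuotientGroup.mk'_surjective _ y
    refine ⟨⟨⁅x, y⁆, Subgroup.commutator_mem_commutator (Subgroup.mem_top x)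
      (Subgroup.mem_top y)⟩, ?_⟩
    rw [hq]
    exact map_commutatorElement _ _ _
  have hcen : (Subgroup.center (U ⧸ PS hab N)).FiniteIndex := inferInstance
  obtain ⟨a, ha, haN⟩ : ∃ a : U, ∃ ha : a ∈ commutator U, el hab a ha ∉ N := by
    by_contra hcon
    push Not at hcon
    apply hN
    rw [eq_top_iff]
    intro z _
    obtain ⟨a, ha, rfl⟩ := el_surj hab z
    exact hcon a ha
  have hqa : q a ≠ 1 := by
    rw [hq]
    intro h
    obtain ⟨ha', h'⟩ := (QuotientGroup.eq_one_iff _).1 h
    exact haN h'
  obtain ⟨M, hM, hMf, hMa⟩ := rf_vab (U ⧸ PS hab N) (Subgroup.center _) hcen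
    (fun a ha b _ => ((Subgroup.mem_center_iff.1 ha) b).symm) (q a) hqa
  exact ⟨M.comap q, hM.comap q, fi_comap q M, fun h => hMa (h ha)⟩

end met

theorem derived_map {G : Type} [Group G] (S : Subgroup G) (n : ℕ) :
    (derivedSeries S n).map S.subtype = dser S n := by
  induction n with
  | zero =>
    rw [derivedSeries_zero, ← MonoidHom.range_eq_map, Subgroup.range_subtype]
    rfl
  | succ n ih =>
    rw [derivedSeries_succ, Subgroup.map_commutator, ih]
    rfl

/-- finitely generated solvable groups whose commutators are in all subgroups of finite index are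
abelian -/
theorem ab_of_solvable (K : Type) [Group K] [hK : Group.FG K] [Group.IsSolvable K]
    (h : ∀ M : Subgroup K, M.Normal → M.FiniteIndex → commutator K ≤ M) : commutator K = ⊥ := by
  by_contra hne
  have hlt : ⁅commutator K, commutator K⁆ < commutator K := Group.IsSolvable.commutator_lt_of_ne_bot hne
  obtain ⟨q, hq⟩ : ∃ q, q = QuotientGroup.mk' ⁅commutator K, commutator K⁆ := ⟨_, rfl⟩
  have hsurj : Function.Surjective q := by rw [hq]; exact QuotientGroup.mk'_surjective _
  have hcm : commutator (K ⧸ ⁅commutator K, commutator K⁆) = (commutator K).map q := by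
    change ⁅(⊤ : Subgroup (K ⧸ ⁅commutator K, commutator K⁆)),
      (⊤ : Subgroup (K ⧸ ⁅commutator K, commutator K⁆))⁆ = Subgroup.map q ⁅(⊤ : Subgroup K), (⊤ : Subgroup K)⁆
    rw [Subgroup.map_commutator, Subgroup.map_top_of_surjective q hsurj]
  have hab : ∀ a ∈ commutator (K ⧸ ⁅commutator K, commutator K⁆),
      ∀ b ∈ commutator (K ⧸ ⁅commutator K, commutator K⁆), a * b = b * a := by
    rw [hcm]
    rintro _ ⟨a, ha, rfl⟩ _ ⟨b, hb, rfl⟩
    rw [← commutatorElement_eq_one_iff_mul_comm, ← map_commutatorElement, hq]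
    exact (QuotientGroup.eq_one_iff _).2 (Subgroup.commutator_mem_commutator ha hb)
  have hne2 : commutator (K ⧸ ⁅commutator K, commutator K⁆) ≠ ⊥ := by
    rw [hcm]
    intro h0
    rw [Subgroup.map_eq_bot_iff, hq, QuotientGroup.ker_mk'] at h0
    exact absurd (lt_of_lt_of_le hlt h0) (lt_irrefl _)
  obtain ⟨M, hM, hMf, hM1⟩ := met hab hne2
  apply hM1
  rw [hcm, Subgroup.map_le_iff_le_comap]
  exact h (M.comap q) (hM.comap q) (fi_comap q M)

end Hall

open Hall in
open scoped commutatorElement in
/-- HALL -/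
theorem hall : S_HALL := by
  intro T _ hT S hS hsol T₁ hT₁ hP z hz
  obtain ⟨n, hn⟩ := hsol
  have hSs : Group.IsSolvable S := by
    refine ⟨⟨n, ?_⟩⟩
    have h1 := derived_map S n
    rw [hn, Subgroup.map_eq_bot_iff_of_injective _ S.subtype_injective] at h1
    exact h1
  obtain ⟨K, hK⟩ : ∃ K, K = S ⊓ T₁ := ⟨_, rfl⟩
  have hKf : K.FiniteIndex := by rw [hK]; infer_instance
  have hKS : K ≤ S := by rw [hK]; exact inf_le_left
  have hKT : K ≤ T₁ := by rw [hK]; exact inf_le_right
  have hKs : Group.IsSolvable K := Group.isSolvable_of_isSolvable_injective (Subgroup.inclusion_injective hKS)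
  have hKfg : Group.FG K := inferInstance
  have hc : commutator K = ⊥ := by
    refine ab_of_solvable K fun M hM hMf => ?_
    have h1 : (M.map K.subtype).FiniteIndex := by
      refine ⟨?_⟩
      rw [Subgroup.index_map_subtype]
      exact mul_ne_zero hMf.index_ne_zero hKf.index_ne_zero
    have h2 := hP (M.map K.subtype).normalCore inferInstance inferInstance
    rw [commutator_def, Subgroup.commutator_le]
    intro a _ b _
    have h3 : ⁅(a : T), (b : T)⁆ ∈ M.map K.subtype :=
      Subgroup.normalCore_le _ (h2 (Subgroup.commutator_mem_commutator (hKT a.2) (hKT b.2)))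
    obtain ⟨y, hy, hyx⟩ := h3
    have : y = ⁅a, b⁆ := Subtype.ext hyx
    exact this ▸ hy
  by_contra hz1
  obtain ⟨M, hM, hMf, hMz⟩ := rf_vab T K hKf (fun a ha b hb => by
    have h1 : ⁅(⟨a, ha⟩ : K), (⟨b, hb⟩ : K)⁆ ∈ commutator K :=
      Subgroup.commutator_mem_commutator (Subgroup.mem_top _) (Subgroup.mem_top _)
    rw [hc, Subgroup.mem_bot, commutatorElement_eq_one_iff_mul_comm] at h1
    exact congrArg Subtype.val h1) z hz1
  exact hMz (hz M hM hMf)

end Pool.Agent.K6.H77.KT
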