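import Pool.Agent.K6.H77.KT.Stm

/-!
# Pieces SPLIT and CEN of project KT (volunteer: helper35)

Finitely generated groups with a finite normal subgroup that contains all commutators.
-/

set_option autoImplicit false

namespace Pool.Agent.K6.H77.KT

open Pool.Agent.N212.SG Subgroup

/-- The center of a finitely generated group all of whose commutators are in a finite subgroup has
finite index. -/
theorem center_finiteIndex {C : Type} [Group C] (hfg : Group.FG C) (F : Subgroup C) (hF : Finite F)
    (hc : ∀ g h : C, g * h * g⁻¹ * h⁻¹ ∈ F) : (Subgroup.center C).FiniteIndex := by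
  have := hfg
  have : Finite (commutatorSet C) := by
    refine Set.Finite.subset (Set.toFinite (F : Set C)) ?_
    rintro x ⟨g, h, rfl⟩
    simpa [commutatorElement_def] using hc g h
  infer_instance

/-- CEN. -/
theorem cen : S_CEN := fun _ _ hfg F hF hc => center_finiteIndex hfg F hF hc

/-- In a finitely generated group, the `m`-th powers of the elements of a subgroup of finite index
of the center form a subgroup of finite index. -/
theorem exists_pow_finiteIndex {C : Type} [Group C] (hfg : Group.FG C)
    (hZ : (Subgroup.center C).FiniteIndex) {m : ℕ} (hm : m ≠ 0) :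
    ∃ D : Subgroup C, D.FiniteIndex ∧ ∀ x ∈ D, ∃ z : C, z ^ m = x := by
  have := hfg
  let φ : (Subgroup.center C) →* (Subgroup.center C) :=
    { toFun := fun z => z ^ m
      map_one' := one_pow m
      map_mul' := fun a b => by
        have h : Commute a b := Subtype.ext (Subgroup.mem_center_iff.mp b.2 a)
        exact h.mul_pow m }
  have hR : φ.range.FiniteIndex := by
    let _ : CommGroup (Subgroup.center C) :=
      { (inferInstance : Group (Subgroup.center C)) with
        mul_comm := fun a b => Subtype.ext (Subgroup.mem_center_iff.mp b.2 a) }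
    have h : Group.FG (Subgroup.center C) := inferInstance
    exact Subgroup.finiteIndex_range_powMonoidHom_of_fg (Subgroup.center C) hm
  refine ⟨φ.range.map (Subgroup.center C).subtype, ?_, ?_⟩
  · rw [Subgroup.finiteIndex_iff, Subgroup.index_map_subtype]
    exact mul_ne_zero hR.index_ne_zero hZ.index_ne_zero
  · rintro x ⟨_, ⟨z, rfl⟩, rfl⟩
    exact ⟨z, rfl⟩

/-- SPLIT. -/
theorem split : Pool.Agent.N212.SG.S_SPLIT.{0} := by
  intro C _ hfg F _ hF hc ht
  have := hF
  have hm0 : Nat.card F ≠ 0 := Nat.card_pos.ne'
  obtain ⟨D, hD, h⟩ := exists_pow_finiteIndex hfg (center_finiteIndex hfg F hF hc) hm0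
  refine ⟨D, hD, ?_⟩
  rw [eq_bot_iff]
  rintro x ⟨hxD, hxF⟩
  obtain ⟨z, rfl⟩ := h x hxD
  have h2 : z ∈ F := ht _ _ hm0 hxF
  have h3 : (⟨z, h2⟩ : F) ^ Nat.card F = 1 := pow_card_eq_one'
  rw [Subgroup.mem_bot]
  exact congrArg Subtype.val h3

end Pool.Agent.K6.H77.KT
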