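import Pool.Agent.K6.H77.KT.Top3
import Pool.Agent.K6.H77.KT.Hall
import Pool.Agent.K6.H77.KT.Split
import Pool.Agent.K6.H77.KT.Eig
import Pool.Agent.K6.H77.KT.Cinv
import Pool.Agent.K6.H77.KT.Fsol

/-!
# Project KT (helper77): conclusions
-/

set_option autoImplicit false

namespace Pool.Agent.K6.H77.KT

open Topology

open scoped commutatorElement

variable {G P Γ : Type} [Group G] [Group P] [TopologicalSpace P] [IsTopologicalGroup P]
  [Group Γ] [TopologicalSpace Γ] [IsTopologicalGroup Γ]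

/-- The group has a solvable subgroup of finite index. -/
def VirtSolvable (Q : Type) [Group Q] : Prop :=
  ∃ A : Subgroup Q, A.FiniteIndex ∧ Group.IsSolvable A

/-- The group has an abelian subgroup of finite index. -/
def VirtAbelian (Q : Type) [Group Q] : Prop :=
  ∃ A : Subgroup Q, A.FiniteIndex ∧ ∀ a ∈ A, ∀ b ∈ A, a * b = b * a

/-- The group has no nontrivial elements of finite order. -/
def TorsionFree (Q : Type) [Group Q] : Prop :=
  ∀ x : Q, ∀ n : ℕ, n ≠ 0 → x ^ n = 1 → x = 1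

theorem dser_eq_bot {Q : Type} [Group Q] {A : Subgroup Q} (h : Group.IsSolvable A) :
    ∃ n, dser A n = ⊥ := by
  obtain ⟨n, hn⟩ := h
  refine ⟨n, ?_⟩
  have h1 : ∀ m, dser (⊤ : Subgroup A) m = derivedSeries A m := by
    intro m
    induction m with
    | zero => rfl
    | succ m ih =>
      change ⁅dser (⊤ : Subgroup A) m, dser (⊤ : Subgroup A) m⁆ = _
      rw [ih, derivedSeries_succ]
  have h2 : (dser (⊤ : Subgroup A) n).map A.subtype = dser A n := by
    rw [dser_map, ← MonoidHom.range_eq_map, Subgroup.range_subtype]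
  rw [← h2, h1, hn, Subgroup.map_bot]

/-- the step, without the leaves -/
theorem step {ι : G →* P} {j : Γ →* P} (hG : IsKSpecialGroup G) (hc : Comparison ι j) :
    ∃ H₀ : Subgroup Γ, IsOpen (H₀ : Set Γ) ∧ H₀.FiniteIndex ∧
      ∀ H D S : Subgroup Γ, IsOpen (H : Set Γ) → H.FiniteIndex → H ≤ H₀ →
        IsClosed (D : Set Γ) → D ≤ H → (∀ h ∈ H, ∀ d ∈ D, h * d * h⁻¹ ∈ D) → S ≤ H →
        S.FiniteIndex → (∃ n, dser S n ≤ D) →
        D.relIndex ⁅H, H⁆ ≠ 0 ∧ ∃ A : Subgroup Γ, A ≤ H ∧ IsOpen (A : Set Γ) ∧ A.FiniteIndex ∧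
          ⁅A, A⁆ ≤ D := by
  obtain ⟨G₀, hG₀, hgood⟩ := good_sub eig cinv split fsol cen hG
  refine ⟨(cl (G₀.map ι)).comap j, (closure_open hc.dense_ι hG₀).preimage hc.cont_j,
    Pool.Agent.K6.H86.QS.comap_fi j (closure_fi hc.dense_ι hG₀), ?_⟩
  rintro H D S hHo hH hH₀ hD hDH hDn hSH hS ⟨n, hn⟩
  exact main_step hall hc hG₀ hgood hHo hH hH₀ hD hDH hDn hSH hS n hn

/-- The kernel of a continuous homomorphism, as a subgroup of the whole group. -/
theorem ker_data {H : Subgroup Γ} (hHo : IsOpen (H : Set Γ)) {Q : Type} [Group Q]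
    [TopologicalSpace Q] [T2Space Q] (f : H →* Q) (hf : Continuous f) :
    IsClosed ((f.ker.map H.subtype : Subgroup Γ) : Set Γ) ∧ f.ker.map H.subtype ≤ H ∧
      (∀ h ∈ H, ∀ d ∈ f.ker.map H.subtype, h * d * h⁻¹ ∈ f.ker.map H.subtype) := by
  refine ⟨?_, ?_, ?_⟩
  · have h1 : IsClosed ((f.ker : Subgroup H) : Set H) := by
      have : ((f.ker : Subgroup H) : Set H) = f ⁻¹' {1} := by
        ext x
        exact MonoidHom.mem_ker
      rw [this]
      exact isClosed_singleton.preimage hf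
    have h2 : IsClosedEmbedding (Subtype.val : H → Γ) :=
      (H.isClosed_of_isOpen hHo).isClosedEmbedding_subtypeVal
    have h3 := h2.isClosedMap _ h1
    exact h3
  · rintro _ ⟨x, _, rfl⟩
    exact x.2
  · rintro h hh _ ⟨d, hd, rfl⟩
    exact ⟨⟨h, hh⟩ * d * ⟨h, hh⟩⁻¹, (inferInstance : f.ker.Normal).conj_mem d hd ⟨h, hh⟩, rfl⟩

theorem VirtSolvable.mono {Q : Type} [Group Q] {A B : Subgroup Q} (h : A ≤ B)
    (hB : VirtSolvable B) : VirtSolvable A := by
  obtain ⟨S, hS, hSs⟩ := hB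
  refine ⟨S.comap (Subgroup.inclusion h), Pool.Agent.K6.H86.QS.comap_fi _ hS, ?_⟩
  let g : (S.comap (Subgroup.inclusion h)) →* S :=
    { toFun := fun x => ⟨Subgroup.inclusion h x, x.2⟩
      map_one' := Subtype.ext (map_one (Subgroup.inclusion h))
      map_mul' := fun x y => Subtype.ext (map_mul (Subgroup.inclusion h) (x : A) (y : A)) }
  have hg : Function.Injective g := by
    intro x y hxy
    have h1 : Subgroup.inclusion h (x : A) = Subgroup.inclusion h (y : A) :=
      congrArg Subtype.val hxy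
    exact Subtype.ext (Subgroup.inclusion_injective h h1)
  have := hSs
  exact Group.isSolvable_of_isSolvable_injective hg

theorem VirtAbelian.of_sub {Q : Type} [Group Q] {A B : Subgroup Q} (h : A ≤ B)
    (hAB : A.relIndex B ≠ 0) (hA : VirtAbelian A) : VirtAbelian B := by
  obtain ⟨S, hS, hSa⟩ := hA
  have h1 : (A.subgroupOf B).FiniteIndex := ⟨hAB⟩
  refine ⟨(S.map A.subtype).subgroupOf B, ⟨?_⟩, ?_⟩
  · change (S.map A.subtype).relIndex B ≠ 0
    refine Subgroup.relIndex_ne_zero_trans (K := A) ?_ hAB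
    have h2 : (S.map A.subtype).relIndex A = S.index := by
      have h3 := Subgroup.relIndex_map_map_of_injective S (⊤ : Subgroup A) A.subtype_injective
      rwa [← MonoidHom.range_eq_map, Subgroup.range_subtype, Subgroup.relIndex_top_right] at h3
    rw [h2]
    exact hS.index_ne_zero
  · rintro a ⟨x, hx, hxa⟩ b ⟨y, hy, hyb⟩
    apply Subtype.ext
    change (a : Q) * b = b * a
    have h2 := congrArg Subtype.val (hSa x hx y hy)
    change (x : Q) * y = y * x at h2
    have hxa' : (x : Q) = a := hxa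
    have hyb' : (y : Q) = b := hyb
    rwa [hxa', hyb'] at h2

/-- Continuous homomorphisms with virtually solvable image. -/
theorem hom_core {ι : G →* P} {j : Γ →* P} (hG : IsKSpecialGroup G) (hc : Comparison ι j) :
    ∃ H₀ : Subgroup Γ, IsOpen (H₀ : Set Γ) ∧ H₀.FiniteIndex ∧
      ∀ H : Subgroup Γ, IsOpen (H : Set Γ) → H.FiniteIndex → H ≤ H₀ →
        ∀ (Q : Type) [Group Q] [TopologicalSpace Q] [T2Space Q] (f : H →* Q), Continuous f →
          VirtSolvable f.range →
          Finite (⁅f.range, f.range⁆ : Subgroup Q) ∧ VirtAbelian f.range := by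
  obtain ⟨H₀, hH₀o, hH₀, hstep⟩ := step hG hc
  refine ⟨H₀, hH₀o, hH₀, ?_⟩
  intro H hHo hH hle Q _ _ _ f hf ⟨A, hA, hAs⟩
  obtain ⟨n, hn⟩ := dser_eq_bot hAs
  obtain ⟨hD1, hD2, hD3⟩ := ker_data hHo f hf
  let S : Subgroup H := A.comap f.rangeRestrict
  have hS : S.FiniteIndex := Pool.Agent.K6.H86.QS.comap_fi _ hA
  have hSn : dser S n ≤ f.ker := by
    intro x hx
    have h1 : f x ∈ (dser S n).map f := ⟨x, hx, rfl⟩
    rw [dser_map] at h1
    have h2 : S.map f ≤ A.map f.range.subtype := by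
      rintro _ ⟨y, hy, rfl⟩
      exact ⟨f.rangeRestrict y, hy, rfl⟩
    have h3 := dser_mono h2 n h1
    rw [← dser_map, hn, Subgroup.map_bot, Subgroup.mem_bot] at h3
    exact h3
  obtain ⟨h1, A', hA'H, hA'o, hA'f, hA'D⟩ := hstep H (f.ker.map H.subtype) (S.map H.subtype) hHo hH
    hle hD1 hD2 hD3 (by
      rintro _ ⟨x, _, rfl⟩
      exact x.2) (Pool.Agent.N212.SG.map_finiteIndex hH hS) ⟨n, by
      rw [← dser_map]
      exact Subgroup.map_mono hSn⟩
  constructor
  · have h2 : ⁅H, H⁆ = (⁅(⊤ : Subgroup H), (⊤ : Subgroup H)⁆ : Subgroup H).map H.subtype := by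
      rw [Subgroup.map_commutator, ← MonoidHom.range_eq_map, Subgroup.range_subtype]
    rw [h2, Subgroup.relIndex_map_map_of_injective _ _ H.subtype_injective,
      Subgroup.relIndex_ker, Subgroup.map_commutator, ← MonoidHom.range_eq_map] at h1
    exact Nat.finite_of_card_ne_zero h1
  · refine ⟨(A'.subgroupOf H).map f.rangeRestrict,
      map_fi f.rangeRestrict_surjective inferInstance, ?_⟩
    rintro _ ⟨a, ha, rfl⟩ _ ⟨b, hb, rfl⟩
    have h2 : ⁅(a : Γ), (b : Γ)⁆ ∈ f.ker.map H.subtype :=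
      hA'D (Subgroup.commutator_mem_commutator ha hb)
    obtain ⟨x, hx, hxab⟩ := h2
    have h3 : x = ⁅a, b⁆ := Subtype.ext hxab
    have h4 : f ⁅a, b⁆ = 1 := h3 ▸ hx
    rw [map_commutatorElement, commutatorElement_eq_one_iff_mul_comm] at h4
    exact Subtype.ext h4

/-- All subgroups of finite index. -/
theorem hom_all {ι : G →* P} {j : Γ →* P} (hG : IsKSpecialGroup G) (hc : Comparison ι j)
    (H : Subgroup Γ) (hHo : IsOpen (H : Set Γ)) (hH : H.FiniteIndex)
    (Q : Type) [Group Q] [TopologicalSpace Q] [T2Space Q] (f : H →* Q) (hf : Continuous f)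
    (hs : VirtSolvable f.range) : VirtAbelian f.range := by
  obtain ⟨H₀, hH₀o, hH₀, hcore⟩ := hom_core hG hc
  have h1 : (H ⊓ H₀).FiniteIndex := inferInstance
  let i : (H ⊓ H₀ : Subgroup Γ) →* H := Subgroup.inclusion inf_le_left
  have hi : Continuous i := continuous_subtype_val.subtype_mk _
  have h2 : (f.comp i).range ≤ f.range := by
    rintro _ ⟨x, rfl⟩
    exact ⟨i x, rfl⟩
  have h3 := (hcore (H ⊓ H₀) (hHo.inter hH₀o) h1 inf_le_right Q (f.comp i) (hf.comp hi)
    (hs.mono h2)).2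
  refine VirtAbelian.of_sub h2 ?_ h3
  have h4 : (f.comp i).range = i.range.map f := by
    rw [MonoidHom.range_comp]
  rw [h4, MonoidHom.range_eq_map f, Subgroup.relIndex_map_map]
  have h5 : i.range = H₀.subgroupOf H := by
    ext x
    constructor
    · rintro ⟨y, rfl⟩
      exact y.2.2
    · intro hx
      exact ⟨⟨x, x.2, hx⟩, rfl⟩
  have h6 : (H₀.subgroupOf H ⊔ f.ker).FiniteIndex := Subgroup.finiteIndex_of_le le_sup_left
  rw [h5, top_sup_eq, Subgroup.relIndex_top_right]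
  exact h6.index_ne_zero

/-- Torsion-free images. -/
theorem hom_tf {ι : G →* P} {j : Γ →* P} (hG : IsKSpecialGroup G) (hc : Comparison ι j) :
    ∃ H₀ : Subgroup Γ, IsOpen (H₀ : Set Γ) ∧ H₀.FiniteIndex ∧
      ∀ H : Subgroup Γ, IsOpen (H : Set Γ) → H.FiniteIndex → H ≤ H₀ →
        ∀ (Q : Type) [Group Q] [TopologicalSpace Q] [T2Space Q] (f : H →* Q), Continuous f →
          VirtSolvable f.range → Finite (⁅f.range, f.range⁆ : Subgroup Q) ∧
            (TorsionFree Q → ∀ x y : H, f (x * y) = f (y * x)) := by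
  obtain ⟨H₀, hH₀o, hH₀, hcore⟩ := hom_core hG hc
  refine ⟨H₀, hH₀o, hH₀, ?_⟩
  intro H hHo hH hle Q _ _ _ f hf hs
  have h1 := (hcore H hHo hH hle Q f hf hs).1
  refine ⟨h1, fun ht x y => ?_⟩
  have h2 : ⁅f x, f y⁆ ∈ (⁅f.range, f.range⁆ : Subgroup Q) :=
    Subgroup.commutator_mem_commutator ⟨x, rfl⟩ ⟨y, rfl⟩
  have h3 : (⟨_, h2⟩ : (⁅f.range, f.range⁆ : Subgroup Q)) ^
      Nat.card (⁅f.range, f.range⁆ : Subgroup Q) = 1 := pow_card_eq_one'
  have h4 : ⁅f x, f y⁆ ^ Nat.card (⁅f.range, f.range⁆ : Subgroup Q) = 1 := congrArg Subtype.val h3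
  have h5 := ht _ _ Nat.card_pos.ne' h4
  rw [commutatorElement_eq_one_iff_mul_comm] at h5
  rw [map_mul, map_mul, h5]

end Pool.Agent.K6.H77.KT
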