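import Pool.Agent.N212.SG.Main
import Pool.Agent.N991.QS.Stm

/-!
# Project KT (helper77): tempered fundamental groups of `K`-analytically special varieties.
Statements of the parts.
-/

set_option autoImplicit false

namespace Pool.Agent.K6.H77.KT

open Pool.Agent.N212.SG

/-- The `n`-th derived subgroup of the subgroup `H`. -/
def dser {G : Type} [Group G] (H : Subgroup G) : ℕ → Subgroup G
  | 0 => H
  | n + 1 => ⁅dser H n, dser H n⁆

/-- HALL. `T` is finitely generated and virtually solvable, and the commutators of the elements of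
some subgroup `T₁` of finite index are in all normal subgroups of finite index of `T`. Then `T` is
residually finite. -/
def S_HALL : Prop :=
  ∀ (T : Type) [Group T], Group.FG T → ∀ S : Subgroup T, S.FiniteIndex →
    (∃ n : ℕ, dser S n = ⊥) → ∀ T₁ : Subgroup T, T₁.FiniteIndex →
    (∀ M : Subgroup T, M.Normal → M.FiniteIndex → ⁅T₁, T₁⁆ ≤ M) →
    ∀ z : T, (∀ M : Subgroup T, M.Normal → M.FiniteIndex → z ∈ M) → z = 1

/-- The cup product `Λ² H¹(H, ℂ) → H²(H, ℂ)` is injective. -/
def CupInjective (H : Type) [Group H] : Prop :=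
  ∀ (ω : H → H → ℂ) (c : H → ℂ), (∀ a b x, ω (a * b) x = ω a x + ω b x) →
    (∀ a b x, ω x (a * b) = ω x a + ω x b) → (∀ a, ω a a = 0) →
    (∀ a b, c (a * b) = c a + c b + ω a b) → ∀ a b, ω a b = 0

/-- CINV. There is no invariant homomorphism on `albKer H`. -/
def S_CINV : Prop :=
  ∀ (H : Type) [Group H], CupInjective H → ∀ χ : H1 (albKer H),
    (∀ (g : H) (k : albKer H),
      χ (Additive.ofMul ⟨g * k * g⁻¹, (albKer_normal H).conj_mem k k.2 g⟩) =
        χ (Additive.ofMul k)) → χ = 0

/-- FSOL. A finitely generated solvable group, all of whose subgroups of finite index have finite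
abelianizations, is finite. -/
def S_FSOL : Prop :=
  ∀ (K : Type) [Group K], Group.FG K → (∃ n : ℕ, dser (⊤ : Subgroup K) n = ⊥) →
    (∀ L : Subgroup K, L.FiniteIndex → ∀ f : H1 L, f = 0) → Finite K

/-- CEN. The center of a finitely generated group with a finite normal subgroup which contains the
commutators. -/
def S_CEN : Prop :=
  ∀ (C : Type) [Group C], Group.FG C → ∀ F : Subgroup C, Finite F →
    (∀ g h : C, g * h * g⁻¹ * h⁻¹ ∈ F) → (Subgroup.center C).FiniteIndex

end Pool.Agent.K6.H77.KT
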