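import Pool.Agent.K6.H77.KT.Stm
import Pool.Agent.N985.QS.COC
import Pool.Agent.N615.SG_RES
import Pool.Agent.N618.SG_CORE
import Pool.Agent.N987.QS.FAB

/-!
# Project KT (helper77): the Albanese kernel has finite abelianizations

Adapted from `Pool.Agent.N212.SG.Main` (helper212), with weaker hypotheses.
-/

set_option autoImplicit false

namespace Pool.Agent.K6.H77.KT

open Pool.Agent.N212.SG

/-- If the complex character `l` of `H` has infinite order, then `H¹(H, ℂ_l) = 0`. -/
def CharTorsion (H : Type) [Group H] : Prop :=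
  ∀ (l : H →* ℂ) (c : H → ℂ), (∀ g h, c (g * h) = c g + l g * c h) →
    (∀ n : ℕ, n ≠ 0 → ∃ g, l g ^ n ≠ 1) → ∃ v : ℂ, ∀ g, c g = (l g - 1) * v

/-- What is used about the fundamental group `G` of the complex variety which corresponds to a
smooth projective `K`-analytically special variety `X`. -/
structure IsKSpecialGroup (G : Type) [Group G] : Prop where
  fg : Group.FG G
  betti : ∃ B : ℕ, ∀ H : Subgroup G, H.FiniteIndex → Module.finrank ℂ (H1 H) ≤ B
  cup : ∀ H : Subgroup G, H.FiniteIndex → CupInjective H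
  char : ∀ H : Subgroup G, H.FiniteIndex → CharTorsion H
  albanese : ∀ H : Subgroup G, H.FiniteIndex → (albKer H).FG

theorem cup_equiv {G H : Type} [Group G] [Group H] (e : G ≃* H) (h : CupInjective G) :
    CupInjective H := by
  intro ω c h1 h2 h3 h4 a b
  have := h (fun x y => ω (e x) (e y)) (fun x => c (e x))
    (fun x y z => by simp only [map_mul, h1]) (fun x y z => by simp only [map_mul, h2])
    (fun x => h3 _) (fun x y => by simp only [map_mul, h4]) (e.symm a) (e.symm b)
  simpa using this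

theorem char_equiv {G H : Type} [Group G] [Group H] (e : G ≃* H) (h : CharTorsion G) :
    CharTorsion H := by
  intro l c hc hl
  obtain ⟨v, hv⟩ := h (l.comp e.toMonoidHom) (fun x => c (e x))
    (fun x y => by
      change c (e (x * y)) = c (e x) + l (e x) * c (e y)
      rw [map_mul, hc]) (fun n hn => by
      obtain ⟨g, hg⟩ := hl n hn
      refine ⟨e.symm g, ?_⟩
      change l (e (e.symm g)) ^ n ≠ 1
      rwa [e.apply_symm_apply])
  refine ⟨v, fun g => ?_⟩
  have := hv (e.symm g)
  change c (e (e.symm g)) = (l (e (e.symm g)) - 1) * v at this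
  rwa [e.apply_symm_apply] at this

theorem isK_sub {G : Type} [Group G] (hG : IsKSpecialGroup G) {H : Subgroup G}
    (hH : H.FiniteIndex) : IsKSpecialGroup H where
  fg := by
    have := hG.fg
    exact Subgroup.fg_of_index_ne_zero H
  betti := by
    obtain ⟨B, hB⟩ := hG.betti
    refine ⟨B, fun H' h' => ?_⟩
    rw [← (h1Equiv (H'.equivMapOfInjective H.subtype H.subtype_injective)).finrank_eq]
    exact hB _ (map_finiteIndex hH h')
  cup H' h' := cup_equiv (H'.equivMapOfInjective H.subtype H.subtype_injective).symm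
    (hG.cup _ (map_finiteIndex hH h'))
  char H' h' := char_equiv (H'.equivMapOfInjective H.subtype H.subtype_injective).symm
    (hG.char _ (map_finiteIndex hH h'))
  albanese H' h' := albKer_fg_equiv
    (H'.equivMapOfInjective H.subtype H.subtype_injective).symm
    (hG.albanese _ (map_finiteIndex hH h'))

theorem exists_maxBetti {G : Type} [Group G] (hG : IsKSpecialGroup G) :
    ∃ H : Subgroup G, H.FiniteIndex ∧ MaxBetti H := by
  obtain ⟨B, hB⟩ := hG.betti
  let S : Set ℕ := {n | ∃ H : Subgroup G, H.FiniteIndex ∧ Module.finrank ℂ (H1 H) = n}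
  have hne : S.Nonempty := ⟨_, ⊤, inferInstance, rfl⟩
  have hbd : BddAbove S := ⟨B, by rintro n ⟨H, hH, rfl⟩; exact hB H hH⟩
  obtain ⟨H, hH, he⟩ := Nat.sSup_mem hne hbd
  refine ⟨H, hH, fun H' h' => ?_⟩
  rw [he]
  refine le_csSup hbd ⟨H'.map H.subtype, map_finiteIndex hH h', ?_⟩
  exact (h1Equiv (H'.equivMapOfInjective H.subtype H.subtype_injective)).finrank_eq

theorem lcs_le_albKer (H : Type) [Group H] :
    (⊤ : Subgroup H).lowerCentralSeries 1 ≤ albKer H := by
  rw [Subgroup.top_lowerCentralSeries_one, commutator_def, Subgroup.commutator_le]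
  intro g _ h _
  exact comm_mem_albKer g h

/-- All subgroups of finite index of the Albanese kernel have finite abelianizations. -/
theorem albKer_fab (hrep : S_EIG.{0}) (hinv : S_CINV) (hcore : S_CORE.{0})
    (hsplit : S_SPLIT.{0}) (hres : S_RES.{0}) {G : Type} [Group G] (hG : IsKSpecialGroup G)
    (hK : (albKer G).FG) (hm : MaxBetti G) (L : Subgroup (albKer G)) (hL : L.FiniteIndex)
    (f : H1 L) : f = 0 := by
  by_contra hf
  have hfgG := hG.fg
  -- a characteristic subgroup
  obtain ⟨L', hL'L, hL', hchar'⟩ := hcore (albKer G) ((Group.fg_iff_subgroup_fg _).2 hK) L hL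
  let N : Subgroup G := L'.map (albKer G).subtype
  have hNn : N.Normal := inferInstanceAs (Subgroup.map _ L').Normal
  have hN : ∀ k : albKer G, (k : G) ∈ N ↔ k ∈ L' := by
    intro k
    constructor
    · rintro ⟨y, hy, hyk⟩
      have : y = k := Subtype.ext hyk
      exact this ▸ hy
    · exact fun h => ⟨k, h, rfl⟩
  have hNK : ∀ g ∈ N, g ∈ albKer G := by
    rintro g ⟨y, _, rfl⟩
    exact y.2
  let φ : albKer G →* G ⧸ N := (QuotientGroup.mk' N).comp (albKer G).subtype
  have hφker : φ.ker = L' := by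
    ext k
    rw [MonoidHom.mem_ker]
    change ((k : G) : G ⧸ N) = 1 ↔ _
    rw [QuotientGroup.eq_one_iff, hN]
  have hmemF : ∀ g : G, (g : G ⧸ N) ∈ φ.range ↔ g ∈ albKer G := by
    intro g
    constructor
    · rintro ⟨k, hk⟩
      have hk' : ((k : G) : G ⧸ N) = (g : G ⧸ N) := hk
      rw [QuotientGroup.eq] at hk'
      have := (albKer G).mul_mem k.2 (hNK _ hk')
      simpa using this
    · exact fun h => ⟨⟨g, h⟩, rfl⟩
  have hFn : φ.range.Normal := by
    refine ⟨fun x hx y => ?_⟩
    obtain ⟨g, rfl⟩ := QuotientGroup.mk_surjective x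
    obtain ⟨h, rfl⟩ := QuotientGroup.mk_surjective y
    rw [hmemF] at hx
    have := (albKer_normal G).conj_mem g hx h
    exact (hmemF (h * g * h⁻¹)).2 this
  have hFfin : Finite φ.range := by
    have : φ.ker.FiniteIndex := hφker ▸ hL'
    exact Finite.of_equiv _ (QuotientGroup.quotientKerEquivRange φ).toEquiv
  have hfgQ : Group.FG (G ⧸ N) := QuotientGroup.fg N
  obtain ⟨D, hD, hDF⟩ := hsplit (G ⧸ N) hfgQ φ.range hFfin
    (by
      intro x y
      obtain ⟨g, rfl⟩ := QuotientGroup.mk_surjective x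
      obtain ⟨h, rfl⟩ := QuotientGroup.mk_surjective y
      exact (hmemF (g * h * g⁻¹ * h⁻¹)).2 (comm_mem_albKer g h))
    (by
      intro x n hn hx
      obtain ⟨g, rfl⟩ := QuotientGroup.mk_surjective x
      rw [hmemF]
      exact pow_mem_albKer hn ((hmemF (g ^ n)).1 hx))
  -- the finite index subgroup
  let H' : Subgroup G := D.comap (QuotientGroup.mk' N)
  have hH' : H'.FiniteIndex := by
    rw [Subgroup.finiteIndex_iff]
    change (D.comap (QuotientGroup.mk' N)).index ≠ 0
    rw [Subgroup.index_comap_of_surjective D (QuotientGroup.mk'_surjective N)]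
    exact hD.index_ne_zero
  have hNH' : ∀ g ∈ N, g ∈ H' := by
    intro g hg
    change (g : G ⧸ N) ∈ D
    rw [(QuotientGroup.eq_one_iff g).2 hg]
    exact D.one_mem
  have hKH' : ∀ g ∈ H', g ∈ albKer G → g ∈ N := by
    intro g hg hgK
    have h1 : (g : G ⧸ N) ∈ D ⊓ φ.range := ⟨hg, (hmemF g).2 hgK⟩
    rw [hDF, Subgroup.mem_bot] at h1
    exact (QuotientGroup.eq_one_iff g).1 h1
  obtain ⟨hm', -, hres'⟩ := maxBetti_sub hres hfgG hm hH'
  have hG' := isK_sub hG hH'
  have hK' := hG.albanese H' hH'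
  -- a nonzero homomorphism on the Albanese kernel of `H'`
  have hmemL : ∀ k : albKer H', ∃ h : ((k : H') : G) ∈ albKer G,
      (⟨((k : H') : G), h⟩ : albKer G) ∈ L := by
    intro k
    have h1 : ((k : H') : G) ∈ albKer G := (hres' k).1 k.2
    exact ⟨h1, hL'L ((hN ⟨_, h1⟩).1 (hKH' _ (k : H').2 h1))⟩
  let ψ : albKer H' →* L :=
    { toFun := fun k => ⟨⟨((k : H') : G), (hmemL k).1⟩, (hmemL k).2⟩
      map_one' := rfl
      map_mul' := fun _ _ => rfl }
  obtain ⟨χ, l, hχ, hχl⟩ := hrep H' (albKer H') hK' (fun g h => comm_mem_albKer g h) (by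
    refine ⟨f.comp (MonoidHom.toAdditive ψ), fun h0 => hf ?_⟩
    ext x
    obtain ⟨n, hn, -, hx⟩ := Subgroup.exists_pow_mem_of_index_ne_zero hL'.index_ne_zero
      ((Additive.toMul x : L) : albKer G)
    have hxN : ((((Additive.toMul x : L) : albKer G) ^ n : albKer G) : G) ∈ N := (hN _).2 hx
    have hxH := hNH' _ hxN
    have hxA : (⟨_, hxH⟩ : H') ∈ albKer H' := (hres' _).2 (hNK _ hxN)
    have h1 : f (Additive.ofMul (ψ ⟨⟨_, hxH⟩, hxA⟩)) = 0 := DFunLike.congr_fun h0
      (Additive.ofMul (⟨⟨_, hxH⟩, hxA⟩ : albKer H'))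
    have h2 : ψ ⟨⟨_, hxH⟩, hxA⟩ = (Additive.toMul x : L) ^ n := rfl
    rw [h2, ofMul_pow, map_nsmul, nsmul_eq_mul] at h1
    exact (mul_eq_zero.1 h1).resolve_left (by exact_mod_cast hn.ne'))
  have hl1 : ∀ k : albKer H', l k = 1 := by
    intro k
    obtain ⟨y, hy⟩ : ∃ y : albKer H', χ (Additive.ofMul y) ≠ 0 := by
      by_contra hcon
      push Not at hcon
      apply hχ
      ext y
      exact hcon (Additive.toMul y)
    have h1 := hχl k y
    have h2 : χ (Additive.ofMul (⟨(k : H') * y * (k : H')⁻¹,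
        (albKer_normal H').conj_mem y y.2 k⟩ : albKer H')) = χ (Additive.ofMul y) := by
      have : (⟨(k : H') * y * (k : H')⁻¹, (albKer_normal H').conj_mem y y.2 k⟩ : albKer H') =
        k * y * k⁻¹ := rfl
      rw [this, ofMul_mul, ofMul_mul, ofMul_inv, map_add, map_add, map_neg]
      ring
    rw [h2] at h1
    have h3 : (l k - 1) * χ (Additive.ofMul y) = 0 := by rw [sub_mul, ← h1]; ring
    exact sub_eq_zero.1 ((mul_eq_zero.1 h3).resolve_right hy)
  obtain ⟨n, hn, hln⟩ : ∃ n : ℕ, n ≠ 0 ∧ ∀ g, l g ^ n = 1 := by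
    by_contra hcon
    push Not at hcon
    obtain ⟨g1, hg1⟩ := hcon 1 one_ne_zero
    rw [pow_one] at hg1
    obtain ⟨c, hc, hcK⟩ := Pool.Agent.N985.QS.COC.t_COC H' (albKer H') ⟨1, lcs_le_albKer H'⟩ χ l
      (fun k hk => hl1 ⟨k, hk⟩) ⟨g1, hg1⟩ hχl
    obtain ⟨v, hv⟩ := hG.char H' hH' l c hc hcon
    apply hχ
    refine AddMonoidHom.ext fun y => ?_
    have h1 := hcK (Additive.toMul y)
    have h3 : l (Additive.toMul y : albKer H') = 1 := hl1 _
    rw [hv, h3, sub_self, zero_mul] at h1
    exact h1.symm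
  -- the kernel of the character
  have hker : l.ker.FiniteIndex := by
    let lr : H' →* rootsOfUnity n ℂ := l.toHomUnits.codRestrict (rootsOfUnity n ℂ) (by
      intro g
      rw [mem_rootsOfUnity]
      ext
      simpa using hln g)
    have : NeZero n := ⟨hn⟩
    have h1 : lr.ker.FiniteIndex := inferInstance
    have h2 : lr.ker = l.ker := by
      ext g
      rw [MonoidHom.mem_ker, MonoidHom.mem_ker]
      constructor
      · intro h
        have := congrArg (fun z : rootsOfUnity n ℂ => ((z : ℂˣ) : ℂ)) h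
        simpa [lr] using this
      · intro h
        apply Subtype.ext
        apply Units.ext
        simpa [lr] using h
    rwa [h2] at h1
  obtain ⟨-, -, hres2⟩ := maxBetti_sub hres hG'.fg hm' hker
  have hker1 : ∀ k : albKer H', (k : H') ∈ l.ker := fun k => hl1 k
  let ι : albKer l.ker →* albKer H' :=
    { toFun := fun k => ⟨((k : l.ker) : H'), (hres2 k).1 k.2⟩
      map_one' := rfl
      map_mul' := fun _ _ => rfl }
  have hz := hinv l.ker (hG'.cup _ hker)
    (χ.comp (MonoidHom.toAdditive ι)) (by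
      intro g k
      have h1 := hχl (g : H') (ι k)
      have h2 : l (g : H') = 1 := g.2
      rw [h2, one_mul] at h1
      exact h1)
  apply hχ
  ext x
  have hx : (⟨((Additive.toMul x : albKer H') : H'), hker1 _⟩ : l.ker) ∈ albKer l.ker :=
    (hres2 _).2 (Additive.toMul x : albKer H').2
  exact DFunLike.congr_fun hz (Additive.ofMul (⟨_, hx⟩ : albKer l.ker))


end Pool.Agent.K6.H77.KT
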