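import Pool.Agent.K6.H77.KT.Fin

/-!
# Project KT (helper77): conclusions for the whole group
-/

set_option autoImplicit false

namespace Pool.Agent.K6.H77.KT

open Topology

open scoped commutatorElement

variable {G P Γ : Type} [Group G] [Group P] [TopologicalSpace P] [IsTopologicalGroup P]
  [Group Γ] [TopologicalSpace Γ] [IsTopologicalGroup Γ]

theorem VirtSolvable.equiv {Q R : Type} [Group Q] [Group R] (e : Q ≃* R) (h : VirtSolvable Q) :
    VirtSolvable R := by
  obtain ⟨A, hA, hs⟩ := h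
  refine ⟨A.comap e.symm.toMonoidHom, Pool.Agent.K6.H86.QS.comap_fi _ hA, ?_⟩
  let g : (A.comap e.symm.toMonoidHom) →* A :=
    { toFun := fun x => ⟨e.symm x, x.2⟩
      map_one' := Subtype.ext (map_one e.symm)
      map_mul' := fun x y => Subtype.ext (map_mul e.symm (x : R) (y : R)) }
  have hg : Function.Injective g := by
    intro x y hxy
    exact Subtype.ext (e.symm.injective (congrArg Subtype.val hxy))
  have := hs
  exact Group.isSolvable_of_isSolvable_injective hg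

theorem VirtAbelian.equiv {Q R : Type} [Group Q] [Group R] (e : Q ≃* R) (h : VirtAbelian Q) :
    VirtAbelian R := by
  obtain ⟨A, hA, hs⟩ := h
  refine ⟨A.comap e.symm.toMonoidHom, Pool.Agent.K6.H86.QS.comap_fi _ hA, ?_⟩
  intro a ha b hb
  have h1 := hs (e.symm a) ha (e.symm b) hb
  rw [← map_mul, ← map_mul] at h1
  exact e.symm.injective h1

/-- Q1 for virtually solvable groups. -/
theorem all_solvable [T2Space Γ] {ι : G →* P} {j : Γ →* P} (hG : IsKSpecialGroup G)
    (hc : Comparison ι j) (h : VirtSolvable Γ) : VirtAbelian Γ := by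
  have h1 : (⊤ : Subgroup Γ).subtype.range = ⊤ := Subgroup.range_subtype _
  have h2 : VirtSolvable (⊤ : Subgroup Γ).subtype.range := by
    rw [h1]
    exact h.equiv Subgroup.topEquiv.symm
  have h3 := hom_all hG hc ⊤ isOpen_univ inferInstance Γ (⊤ : Subgroup Γ).subtype
    continuous_subtype_val h2
  rw [h1] at h3
  exact h3.equiv Subgroup.topEquiv

/-- The continuous homomorphisms from `H` to Hausdorff torsion-free groups with virtually solvable
image separate the elements of `H`. -/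
def Separated (H : Subgroup Γ) : Prop :=
  ∀ x : H, x ≠ 1 → ∃ (Q : Type) (_ : Group Q) (_ : TopologicalSpace Q) (_ : T2Space Q)
    (f : H →* Q), Continuous f ∧ TorsionFree Q ∧ VirtSolvable f.range ∧ f x ≠ 1

theorem all_separated {ι : G →* P} {j : Γ →* P} (hG : IsKSpecialGroup G)
    (hc : Comparison ι j) {H : Subgroup Γ} (hHo : IsOpen (H : Set Γ)) (hH : H.FiniteIndex)
    (hs : Separated H) : VirtAbelian Γ := by
  obtain ⟨H₀, hH₀o, hH₀, hcore⟩ := hom_tf hG hc
  refine ⟨H ⊓ H₀, inferInstance, ?_⟩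
  intro x hx y hy
  by_contra hxy
  have hx1 : x * y * x⁻¹ * y⁻¹ ∈ H := H.mul_mem (H.mul_mem (H.mul_mem hx.1 hy.1)
    (H.inv_mem hx.1)) (H.inv_mem hy.1)
  obtain ⟨Q, _, _, _, f, hf, ht, hv, hne⟩ := hs ⟨x * y * x⁻¹ * y⁻¹, hx1⟩ (by
    intro h
    apply hxy
    have h1 : x * y * x⁻¹ * y⁻¹ = 1 := congrArg Subtype.val h
    rwa [mul_inv_eq_one, mul_inv_eq_iff_eq_mul] at h1)
  let i : (H ⊓ H₀ : Subgroup Γ) →* H := Subgroup.inclusion inf_le_left
  have hi : Continuous i := continuous_subtype_val.subtype_mk _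
  have h2 : (f.comp i).range ≤ f.range := by
    rintro _ ⟨x, rfl⟩
    exact ⟨i x, rfl⟩
  have h3 := (hcore (H ⊓ H₀) (hHo.inter hH₀o) inferInstance inf_le_right Q (f.comp i)
    (hf.comp hi) (hv.mono h2)).2 ht ⟨x, hx⟩ ⟨y, hy⟩
  apply hne
  have h4 : f ((⟨x, hx.1⟩ : H) * ⟨y, hy.1⟩) = f ((⟨y, hy.1⟩ : H) * ⟨x, hx.1⟩) := h3
  have h5 : (⟨x * y * x⁻¹ * y⁻¹, hx1⟩ : H) = (⟨x, hx.1⟩ * ⟨y, hy.1⟩) * (⟨y, hy.1⟩ * ⟨x, hx.1⟩)⁻¹ := by
    apply Subtype.ext
    change x * y * x⁻¹ * y⁻¹ = (x * y) * (y * x)⁻¹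
    group
  rw [h5, map_mul, map_inv, h4, mul_inv_cancel]

/-- Residually finite quotients: the comparison with the étale fundamental group. -/
theorem iff_etale [T2Space Γ] [T2Space P] {j : Γ →* P} (hd : DenseRange j) (hjc : Continuous j)
    (ho : ∀ H : Subgroup Γ, IsOpen (H : Set Γ) → H.FiniteIndex →
      ∃ P' : Subgroup P, IsOpen (P' : Set P) ∧ P'.comap j = H)
    (hrf : ∀ U ∈ 𝓝 (1 : Γ), ∃ N : Subgroup Γ, ∃ _ : N.Normal, IsOpen (N : Set Γ) ∧
      (N : Set Γ) ⊆ U ∧ Group.ResiduallyFinite (Γ ⧸ N)) : VirtAbelian Γ ↔ VirtAbelian P := by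
  constructor
  · rintro ⟨A, hA, hAa⟩
    refine ⟨cl (A.map j), closure_fi hd hA, ?_⟩
    have h1 : ⁅A.map j, A.map j⁆ ≤ (⊥ : Subgroup P) := by
      rw [Subgroup.commutator_le]
      rintro _ ⟨a, ha, rfl⟩ _ ⟨b, hb, rfl⟩
      rw [Subgroup.mem_bot, commutatorElement_eq_one_iff_mul_comm, ← map_mul, ← map_mul,
        hAa a ha b hb]
    have h2 : ⁅cl (A.map j), cl (A.map j)⁆ ≤ (⊥ : Subgroup P) :=
      (comm_closure h1).trans (cl_min le_rfl (by
        rw [Subgroup.coe_bot]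
        exact isClosed_singleton))
    intro a ha b hb
    have h3 := h2 (Subgroup.commutator_mem_commutator ha hb)
    rwa [Subgroup.mem_bot, commutatorElement_eq_one_iff_mul_comm] at h3
  · rintro ⟨A, hA, hAa⟩
    have hAA : ⁅A, A⁆ ≤ (⊥ : Subgroup P) := by
      rw [Subgroup.commutator_le]
      intro a ha b hb
      rw [Subgroup.mem_bot, commutatorElement_eq_one_iff_mul_comm, hAa a ha b hb]
    refine ⟨A.comap j, Pool.Agent.K6.H86.QS.comap_fi j hA, ?_⟩
    intro x hx y hy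
    have hj : j ⁅x, y⁆ = 1 := by
      rw [map_commutatorElement, commutatorElement_eq_one_iff_mul_comm]
      exact hAa _ hx _ hy
    rw [← commutatorElement_eq_one_iff_mul_comm]
    by_contra hne
    have hU : ({⁅x, y⁆}ᶜ : Set Γ) ∈ 𝓝 (1 : Γ) :=
      isOpen_compl_singleton.mem_nhds (fun h => hne (Set.mem_singleton_iff.1 h).symm)
    obtain ⟨N, hN, hNo, hNU, hNf⟩ := hrf _ hU
    have h1 : (QuotientGroup.mk' N ⁅x, y⁆ : Γ ⧸ N) = 1 := by
      refine Group.residuallyFinite_iff_forall_finiteIndexNormalSubgroup.1 hNf _ fun M => ?_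
      have hM' : (M.toSubgroup.comap (QuotientGroup.mk' N)).FiniteIndex :=
        Pool.Agent.K6.H86.QS.comap_fi _ inferInstance
      have hMo : IsOpen ((M.toSubgroup.comap (QuotientGroup.mk' N) : Subgroup Γ) : Set Γ) := by
        refine Subgroup.isOpen_mono (H₁ := N) ?_ hNo
        intro z hz
        have : (QuotientGroup.mk' N z : Γ ⧸ N) = 1 := (QuotientGroup.eq_one_iff z).2 hz
        rw [Subgroup.mem_comap, this]
        exact Subgroup.one_mem _
      obtain ⟨P', _, hP'⟩ := ho _ hMo hM'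
      have h2 : ⁅x, y⁆ ∈ P'.comap j := by
        rw [Subgroup.mem_comap, hj]
        exact P'.one_mem
      rw [hP'] at h2
      exact h2
    have h2 : ⁅x, y⁆ ∈ N := (QuotientGroup.eq_one_iff _).1 h1
    exact hNU h2 rfl

end Pool.Agent.K6.H77.KT
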