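import Pool.Agent.K6.H77.KT.Fin2
import Mathlib.Topology.Algebra.ClopenNhdofOne
import Mathlib.GroupTheory.FreeGroup.NielsenSchreier
import Mathlib.GroupTheory.FreeGroup.CyclicallyReduced

/-!
# Project KT (helper77): residually solvable images, free groups, the étale fundamental group
-/

set_option autoImplicit false

namespace Pool.Agent.K6.H77.KT

open Topology

open scoped commutatorElement

variable {G P Γ : Type} [Group G] [Group P] [TopologicalSpace P] [IsTopologicalGroup P]
  [Group Γ] [TopologicalSpace Γ] [IsTopologicalGroup Γ]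

/-- The elements of `H` which are not in the kernel of `f` are not in the kernels of suitable
continuous homomorphisms of `H` to Hausdorff torsion-free groups which factor through `f` and have
virtually solvable images. -/
def ResSolvable {H Q : Type} [Group H] [TopologicalSpace H] [Group Q] (f : H →* Q) : Prop :=
  ∀ x : H, f x ≠ 1 → ∃ (T : Type) (_ : Group T) (_ : TopologicalSpace T) (_ : T2Space T)
    (g : H →* T), Continuous g ∧ TorsionFree T ∧ VirtSolvable g.range ∧ f.ker ≤ g.ker ∧ g x ≠ 1

theorem range_fi {H H' Q : Type} [Group H] [Group H'] [Group Q] (f : H →* Q) (i : H' →* H)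
    (hi : i.range.FiniteIndex) : (f.comp i).range.relIndex f.range ≠ 0 := by
  rw [MonoidHom.range_comp, MonoidHom.range_eq_map f, Subgroup.relIndex_map_map, top_sup_eq,
    Subgroup.relIndex_top_right]
  exact (Subgroup.finiteIndex_of_le (le_sup_left : i.range ≤ i.range ⊔ f.ker)).index_ne_zero

theorem incl_range (H H₀ : Subgroup Γ) :
    (Subgroup.inclusion (inf_le_left : H ⊓ H₀ ≤ H)).range = H₀.subgroupOf H := by
  ext x
  constructor
  · rintro ⟨y, rfl⟩
    exact y.2.2
  · intro hx
    exact ⟨⟨x, x.2, hx⟩, rfl⟩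

/-- Images which are residually (torsion-free virtually solvable). -/
theorem hom_residual {ι : G →* P} {j : Γ →* P} (hG : IsKSpecialGroup G) (hc : Comparison ι j)
    (H : Subgroup Γ) (hHo : IsOpen (H : Set Γ)) (hH : H.FiniteIndex)
    (Q : Type) [Group Q] (f : H →* Q) (hs : ResSolvable f) : VirtAbelian f.range := by
  obtain ⟨H₀, hH₀o, hH₀, hcore⟩ := hom_tf hG hc
  let i : (H ⊓ H₀ : Subgroup Γ) →* H := Subgroup.inclusion inf_le_left
  have hi : Continuous i := continuous_subtype_val.subtype_mk _
  have hir : i.range.FiniteIndex := by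
    rw [incl_range H H₀]
    infer_instance
  have h2 : (f.comp i).range ≤ f.range := by
    rintro _ ⟨x, rfl⟩
    exact ⟨i x, rfl⟩
  refine VirtAbelian.of_sub h2 (range_fi f i hir) ⟨⊤, inferInstance, ?_⟩
  rintro ⟨_, x, rfl⟩ _ ⟨_, y, rfl⟩ _
  apply Subtype.ext
  change f (i x) * f (i y) = f (i y) * f (i x)
  by_contra hxy
  have hne : f (i x * i y * (i y * i x)⁻¹) ≠ 1 := by
    intro h
    apply hxy
    rwa [map_mul, map_inv, mul_inv_eq_one, map_mul, map_mul] at h
  obtain ⟨T, _, _, _, g, hg, ht, hv, -, hne'⟩ := hs _ hne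
  have h3 : (g.comp i).range ≤ g.range := by
    rintro _ ⟨x, rfl⟩
    exact ⟨i x, rfl⟩
  have h4 := (hcore (H ⊓ H₀) (hHo.inter hH₀o) inferInstance inf_le_right T (g.comp i)
    (hg.comp hi) (hv.mono h3)).2 ht x y
  apply hne'
  have h5 : g (i x * i y) = g (i y * i x) := by
    rw [← map_mul i, ← map_mul i]
    exact h4
  rw [map_mul g (i x * i y), map_inv, h5, mul_inv_cancel]

/-- The étale fundamental group. -/
theorem etale_solvable [CompactSpace P] [TotallyDisconnectedSpace P] [T2Space P] {ι : G →* P}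
    (hG : IsKSpecialGroup G) (hι : DenseRange ι) (h : VirtSolvable P) : VirtAbelian P := by
  refine all_solvable (ι := ι) (j := MonoidHom.id P) hG ⟨hι, ?_, continuous_id, ?_, ?_⟩ h
  · exact Function.surjective_id.denseRange
  · exact fun H hH _ => ⟨H, hH, Subgroup.comap_id H⟩
  · intro U hU
    obtain ⟨V, hVU, hVo, hV1⟩ := mem_nhds_iff.1 hU
    obtain ⟨N, hN⟩ := ProfiniteGrp.exist_openNormalSubgroup_sub_open_nhds_of_one hVo hV1
    have hNn : (N.toSubgroup).Normal := N.isNormal'
    have hNo : IsOpen ((N.toSubgroup : Subgroup P) : Set P) := N.isOpen'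
    refine ⟨N.toSubgroup, hNn, hNo, fun x hx => hVU (hN hx), ?_⟩
    have : Finite (P ⧸ N.toSubgroup) := Subgroup.quotient_finite_of_isOpen _ hNo
    infer_instance

end Pool.Agent.K6.H77.KT
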