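import Pool.Agent.K6.H77.KT.Fin3
import Mathlib.GroupTheory.SemidirectProduct

/-!
# Project KT (helper77): homomorphisms to free groups
-/

set_option autoImplicit false

namespace Pool.Agent.K6.H77.KT

open Topology

variable {G P Γ : Type} [Group G] [Group P] [TopologicalSpace P] [IsTopologicalGroup P]
  [Group Γ] [TopologicalSpace Γ] [IsTopologicalGroup Γ]

/-- multiplication by units -/
def uact : ℚˣ →* MulAut (Multiplicative ℚ) where
  toFun u := AddEquiv.toMultiplicative (DistribMulAction.toAddAut ℚˣ ℚ u)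
  map_one' := by
    ext x
    change Multiplicative.ofAdd ((1 : ℚˣ) • Multiplicative.toAdd x) = x
    rw [one_smul, ofAdd_toAdd]
  map_mul' u v := by
    ext x
    change Multiplicative.ofAdd ((u * v) • Multiplicative.toAdd x) =
      Multiplicative.ofAdd (u • v • Multiplicative.toAdd x)
    rw [mul_smul]

/-- The group of the affine maps of the line over the rationals. -/
abbrev Aff : Type := Multiplicative ℚ ⋊[uact] ℚˣ

instance : Group.IsSolvable Aff := by
  refine Group.isSolvable_of_ker_le_range
    (SemidirectProduct.inl : Multiplicative ℚ →* Aff) (SemidirectProduct.rightHom : Aff →* ℚˣ) ?_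
  exact SemidirectProduct.range_inl_eq_ker_rightHom.ge

/-- multiplication by two -/
def affA : Aff := SemidirectProduct.inr (Units.mk0 (2 : ℚ) two_ne_zero)

/-- translation by one -/
def affB : Aff := SemidirectProduct.inl (Multiplicative.ofAdd (1 : ℚ))

theorem aff_ne {n : ℕ} (hn : n ≠ 0) : affA ^ n * affB ^ n ≠ affB ^ n * affA ^ n := by
  intro h
  have h1 := congrArg SemidirectProduct.left h
  have e1 : affA ^ n = SemidirectProduct.inr ((Units.mk0 (2 : ℚ) two_ne_zero) ^ n) := by
    rw [map_pow]
    rfl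
  have e2 : affB ^ n = SemidirectProduct.inl ((Multiplicative.ofAdd (1 : ℚ)) ^ n) := by
    rw [map_pow]
    rfl
  rw [e1, e2, SemidirectProduct.mul_left, SemidirectProduct.mul_left, SemidirectProduct.left_inl,
    SemidirectProduct.left_inr, SemidirectProduct.right_inl, SemidirectProduct.right_inr,
    map_one uact, MulAut.one_apply, one_mul, mul_one, ← ofAdd_nsmul] at h1
  have h2 : (2 : ℚ) ^ n * (n : ℚ) = n := by
    have h3 := congrArg Multiplicative.toAdd h1
    have h4 : Multiplicative.toAdd (uact
        ((Units.mk0 (2 : ℚ) two_ne_zero) ^ n) (Multiplicative.ofAdd (n • (1 : ℚ)))) =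
        (2 : ℚ) ^ n * (n • (1 : ℚ)) := by
      change (((Units.mk0 (2 : ℚ) two_ne_zero) ^ n : ℚˣ) : ℚ) * (n • (1 : ℚ)) = _
      rw [Units.val_pow_eq_pow_val, Units.val_mk0]
    rw [h4, toAdd_ofAdd, nsmul_eq_mul, mul_one] at h3
    exact h3
  have h5 : (n : ℚ) ≠ 0 := by exact_mod_cast hn
  have h6 : (2 : ℚ) ^ n = 1 := mul_right_cancel₀ h5 (by rw [h2, one_mul])
  have h7 : (1 : ℚ) < 2 ^ n := one_lt_pow₀ (by norm_num) hn
  exact h7.ne' h6

/-- A subgroup of `Aff` which contains `affA` and `affB` is not virtually abelian. -/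
theorem aff_not {R : Subgroup Aff} (hA : affA ∈ R) (hB : affB ∈ R) : ¬ VirtAbelian R := by
  rintro ⟨S, hS, hSa⟩
  obtain ⟨m, hm, -, hm'⟩ := Subgroup.exists_pow_mem_of_index_ne_zero hS.index_ne_zero
    (⟨affA, hA⟩ : R)
  obtain ⟨n, hn, -, hn'⟩ := Subgroup.exists_pow_mem_of_index_ne_zero hS.index_ne_zero
    (⟨affB, hB⟩ : R)
  have h1 : (⟨affA, hA⟩ : R) ^ (m * n) ∈ S := by
    rw [pow_mul]
    exact S.pow_mem hm' n
  have h2 : (⟨affB, hB⟩ : R) ^ (m * n) ∈ S := by
    rw [mul_comm, pow_mul]
    exact S.pow_mem hn' m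
  have h3 := congrArg Subtype.val (hSa _ h1 _ h2)
  exact aff_ne (mul_ne_zero hm.ne' hn.ne') h3

theorem comm_of_subsingleton {X : Type} [Subsingleton X] (x y : FreeGroup X) :
    x * y = y * x := by
  have h1 : IsMulCommutative (Subgroup.closure (Set.range (FreeGroup.of : X → FreeGroup X))) := by
    refine Subgroup.isMulCommutative_closure ?_
    rintro _ ⟨a, rfl⟩ _ ⟨b, rfl⟩
    rw [Subsingleton.elim a b]
  rw [FreeGroup.closure_range_of] at h1
  have h2 := h1.is_comm.comm (⟨x, Subgroup.mem_top x⟩ : (⊤ : Subgroup (FreeGroup X)))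
    ⟨y, Subgroup.mem_top y⟩
  exact congrArg Subtype.val h2

/-- Homomorphisms to free groups. -/
theorem hom_free {ι : G →* P} {j : Γ →* P} (hG : IsKSpecialGroup G) (hc : Comparison ι j)
    (H : Subgroup Γ) (hHo : IsOpen (H : Set Γ)) (hH : H.FiniteIndex) (X : Type)
    (f : H →* FreeGroup X) (hf : IsOpen (f.ker : Set H)) (x y : H) : f (x * y) = f (y * x) := by
  classical
  have hcomm : ∀ u v : f.range, u * v = v * u := by
    by_contra hcon
    have hns : ¬ Subsingleton (IsFreeGroup.Generators f.range) := by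
      intro h
      apply hcon
      intro u v
      apply (IsFreeGroup.toFreeGroup f.range).injective
      rw [map_mul, map_mul]
      exact comm_of_subsingleton _ _
    rw [not_subsingleton_iff_nontrivial] at hns
    obtain ⟨a, b, hab⟩ := hns.exists_pair_ne
    let g : f.range →* Aff := IsFreeGroup.lift fun c => if c = a then affA else affB
    have hga : g (IsFreeGroup.of a) = affA := by
      rw [IsFreeGroup.lift_of, if_pos rfl]
    have hgb : g (IsFreeGroup.of b) = affB := by
      rw [IsFreeGroup.lift_of, if_neg (Ne.symm hab)]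
    let _ : TopologicalSpace Aff := ⊥
    have : DiscreteTopology Aff := ⟨rfl⟩
    let φ : H →* Aff := g.comp f.rangeRestrict
    have hφ : Continuous φ := by
      have h1 : IsOpen (φ.ker : Set H) := by
        refine Subgroup.isOpen_mono (H₁ := f.ker) ?_ hf
        intro z hz
        have h2 : f.rangeRestrict z = 1 := Subtype.ext hz
        change g (f.rangeRestrict z) = 1
        rw [h2, map_one]
      refine continuous_of_continuousAt_one φ ?_
      have h2 : 𝓝 (1 : Aff) = pure 1 := by rw [nhds_discrete]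
      rw [ContinuousAt, map_one, h2, Filter.tendsto_pure]
      exact h1.mem_nhds φ.ker.one_mem
    have hsurj : ∀ u : f.range, g u ∈ φ.range := by
      rintro ⟨_, z, rfl⟩
      exact ⟨z, rfl⟩
    have h3 := hom_all hG hc H hHo hH Aff φ hφ ⟨⊤, inferInstance, by
      have h4 : Group.IsSolvable φ.range := inferInstance
      exact inferInstance⟩
    exact aff_not (hga ▸ hsurj _) (hgb ▸ hsurj _) h3
  have h1 := congrArg Subtype.val (hcomm (f.rangeRestrict x) (f.rangeRestrict y))
  rw [map_mul, map_mul]
  exact h1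

end Pool.Agent.K6.H77.KT
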