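import Pool.Agent.K6.H77.KT.Quot

/-!
# Project KT (helper77): virtually solvable quotients of the subgroups of finite index
-/

set_option autoImplicit false

namespace Pool.Agent.K6.H77.KT

open Pool.Agent.N212.SG

/-- The virtually solvable quotients of `H` have finite commutator subgroups and are virtually
abelian. -/
def GoodSub {G : Type} [Group G] (H : Subgroup G) : Prop :=
  ∀ (M S : Subgroup G) (n : ℕ), M ≤ H → (∀ h ∈ H, ∀ m ∈ M, h * m * h⁻¹ ∈ M) → S ≤ H →
    S.FiniteIndex → dser S n ≤ M →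
    M.relIndex ⁅H, H⁆ ≠ 0 ∧ ∃ A : Subgroup G, A ≤ H ∧ A.FiniteIndex ∧ ⁅A, A⁆ ≤ M

theorem good_sub (hrep : S_EIG.{0}) (hinv : S_CINV) (hsplit : S_SPLIT.{0}) (hfsol : S_FSOL)
    (hcen : S_CEN) {G : Type} [Group G] (hG : IsKSpecialGroup G) :
    ∃ H₀ : Subgroup G, H₀.FiniteIndex ∧ ∀ H : Subgroup G, H ≤ H₀ → H.FiniteIndex → GoodSub H := by
  obtain ⟨B, hB⟩ := hG.betti
  let T : Set ℕ := {n | ∃ H : Subgroup G, H.FiniteIndex ∧ Module.finrank ℂ (H1 H) = n}
  have hne : T.Nonempty := ⟨_, ⊤, inferInstance, rfl⟩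
  have hbd : BddAbove T := ⟨B, by rintro n ⟨H, hH, rfl⟩; exact hB H hH⟩
  obtain ⟨H₀, hH₀, he⟩ := Nat.sSup_mem hne hbd
  have hmax : ∀ H : Subgroup G, H.FiniteIndex →
      Module.finrank ℂ (H1 H) ≤ Module.finrank ℂ (H1 H₀) := by
    intro H hH
    rw [he]
    exact le_csSup hbd ⟨H, hH, rfl⟩
  refine ⟨H₀, hH₀, fun H hle hH => ?_⟩
  have hKH := isK_sub hG hH
  have hm : MaxBetti H := by
    intro H' h'
    rw [(h1Equiv (H'.equivMapOfInjective H.subtype H.subtype_injective)).symm.finrank_eq]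
    refine (hmax _ (map_finiteIndex hH h')).trans ?_
    have h1 := (Pool.Agent.N615.SG.t_RES H₀ (isK_sub hG hH₀).fg (H.subgroupOf H₀)
      inferInstance).1
    rwa [(h1Equiv (Subgroup.subgroupOfEquivOfLe hle)).symm.finrank_eq] at h1
  intro M S n hMH hMn hSH hS hn
  have hMN : (M.subgroupOf H).Normal := ⟨fun m hm' h => hMn h h.2 m hm'⟩
  have hn' : dser (S.subgroupOf H) n ≤ M.subgroupOf H := by
    intro x hx
    have h1 : (x : G) ∈ (dser (S.subgroupOf H) n).map H.subtype := ⟨x, hx, rfl⟩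
    rw [dser_map, Subgroup.subgroupOf_map_subtype, inf_eq_left.2 hSH] at h1
    exact hn h1
  have htop : (⊤ : Subgroup H).map H.subtype = H := by
    rw [← MonoidHom.range_eq_map, Subgroup.range_subtype]
  obtain ⟨h1, A, hA, hAM⟩ := quot hrep hinv hsplit hfsol hcen hKH hm (M.subgroupOf H)
    (S.subgroupOf H) inferInstance n hn'
  constructor
  · rw [Subgroup.subgroupOf, Subgroup.relIndex_comap, Subgroup.map_commutator, htop] at h1
    exact h1
  · refine ⟨A.map H.subtype, ?_, map_finiteIndex hH hA, ?_⟩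
    · rintro _ ⟨x, _, rfl⟩
      exact x.2
    · rw [← Subgroup.map_commutator]
      rintro _ ⟨x, hx, rfl⟩
      exact hAM hx

end Pool.Agent.K6.H77.KT
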