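import Pool.Agent.K6.H77.KT.FAb
import Pool.Agent.K6.H86.QS.FAb

/-!
# Project KT (helper77): virtually solvable quotients
-/

set_option autoImplicit false

namespace Pool.Agent.K6.H77.KT

open Pool.Agent.N212.SG

open Pool.Agent.K6.H86.QS (FAb)

theorem dser_map {G K : Type} [Group G] [Group K] (f : G →* K) (H : Subgroup G) (n : ℕ) :
    (dser H n).map f = dser (H.map f) n := by
  induction n with
  | zero => rfl
  | succ n ih =>
    change (⁅dser H n, dser H n⁆).map f = ⁅dser (H.map f) n, dser (H.map f) n⁆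
    rw [Subgroup.map_commutator, ih]

theorem dser_mono {G : Type} [Group G] {H K : Subgroup G} (h : H ≤ K) (n : ℕ) :
    dser H n ≤ dser K n := by
  induction n with
  | zero => exact h
  | succ n ih => exact Subgroup.commutator_mono ih ih

theorem dser_le {G : Type} [Group G] (H : Subgroup G) (n : ℕ) : dser H n ≤ H := by
  induction n with
  | zero => exact le_rfl
  | succ n ih =>
    change ⁅dser H n, dser H n⁆ ≤ H
    rw [Subgroup.commutator_le]
    intro a ha b hb
    rw [commutatorElement_def]
    exact H.mul_mem (H.mul_mem (H.mul_mem (ih ha) (ih hb)) (H.inv_mem (ih ha))) (H.inv_mem (ih hb))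

theorem fab_range {K N : Type} [Group K] [Group N] (h : FAb K) (f : K →* N) : FAb f.range := by
  intro L hL g
  have h1 : (L.comap f.rangeRestrict).FiniteIndex :=
    Pool.Agent.K6.H86.QS.comap_fi f.rangeRestrict hL
  let p : (L.comap f.rangeRestrict) →* L :=
    { toFun := fun x => ⟨f.rangeRestrict x, x.2⟩
      map_one' := Subtype.ext (map_one f.rangeRestrict)
      map_mul' := fun x y => Subtype.ext (map_mul f.rangeRestrict (x : K) (y : K)) }
  have h2 := (h.sub h1).zero (g.comp (MonoidHom.toAdditive p))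
  refine AddMonoidHom.ext fun x => ?_
  obtain ⟨y, hy⟩ := f.rangeRestrict_surjective ((Additive.toMul x : L) : f.range)
  have hyL : y ∈ L.comap f.rangeRestrict := by
    rw [Subgroup.mem_comap, hy]
    exact (Additive.toMul x : L).2
  have h3 := DFunLike.congr_fun h2 (Additive.ofMul (⟨y, hyL⟩ : L.comap f.rangeRestrict))
  have h4 : p ⟨y, hyL⟩ = Additive.toMul x := Subtype.ext hy
  change g (Additive.ofMul (p ⟨y, hyL⟩)) = 0 at h3
  rw [h4] at h3
  exact h3

/-- A virtually solvable quotient of a finitely generated `FAb` group is finite. -/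
theorem finite_range (hfsol : S_FSOL) {K Q : Type} [Group K] [Group Q] (hfg : Group.FG K)
    (hK : FAb K) (f : K →* Q) (S : Subgroup K) (hS : S.FiniteIndex) (n : ℕ)
    (hn : dser S n ≤ f.ker) : Finite f.range := by
  let φ : S →* Q := f.comp S.subtype
  have hSfg : Group.FG S := Subgroup.fg_of_index_ne_zero S
  have h1 : Finite φ.range := by
    refine hfsol φ.range (Group.fg_of_surjective φ.rangeRestrict_surjective) ⟨n, ?_⟩
      (fab_range (hK.sub hS) φ)
    have h2 : (dser (⊤ : Subgroup φ.range) n).map φ.range.subtype = ⊥ := by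
      rw [dser_map, ← MonoidHom.range_eq_map, Subgroup.range_subtype]
      have h3 : φ.range = S.map f := by
        rw [MonoidHom.range_comp, Subgroup.range_subtype]
      rw [h3, ← dser_map, eq_bot_iff]
      rintro _ ⟨x, hx, rfl⟩
      exact Subgroup.mem_bot.2 (hn hx)
    rwa [Subgroup.map_eq_bot_iff_of_injective _ φ.range.subtype_injective] at h2
  -- `φ.range` has finite index in `f.range`
  have h2 : φ.range = S.map f := by
    rw [MonoidHom.range_comp, Subgroup.range_subtype]
  have h3 : (S.map f).relIndex f.range ≠ 0 := by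
    rw [MonoidHom.range_eq_map, Subgroup.relIndex_map_map]
    have h4 : (S ⊔ f.ker).FiniteIndex := Subgroup.finiteIndex_of_le le_sup_left
    rw [top_sup_eq, Subgroup.relIndex_top_right]
    exact h4.index_ne_zero
  have h5 : Finite (S.map f) := h2 ▸ h1
  have h6 : ((S.map f).subgroupOf f.range).FiniteIndex := ⟨h3⟩
  have h7 : Finite ((S.map f).subgroupOf f.range) := by
    refine Finite.of_injective (fun x : (S.map f).subgroupOf f.range =>
      (⟨((x : f.range) : Q), x.2⟩ : S.map f)) ?_
    intro x y hxy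
    have h9 : ((x : f.range) : Q) = ((y : f.range) : Q) :=
      congrArg (fun z : (S.map f : Subgroup Q) => (z : Q)) hxy
    exact Subtype.ext (Subtype.ext h9)
  have h8 : Finite (f.range ⧸ (S.map f).subgroupOf f.range) :=
    Subgroup.finite_quotient_of_finiteIndex
  exact Finite.of_equiv _ (Subgroup.groupEquivQuotientProdSubgroup
    (s := (S.map f).subgroupOf f.range)).symm

/-- Virtually solvable quotients of a group with maximal Betti number. -/
theorem quot (hrep : S_EIG.{0}) (hinv : S_CINV) (hsplit : S_SPLIT.{0}) (hfsol : S_FSOL)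
    (hcen : S_CEN) {H : Type} [Group H] (hH : IsKSpecialGroup H) (hm : MaxBetti H)
    (M : Subgroup H) [M.Normal] (S : Subgroup H) (hS : S.FiniteIndex) (n : ℕ)
    (hn : dser S n ≤ M) :
    M.relIndex (⁅(⊤ : Subgroup H), (⊤ : Subgroup H)⁆ : Subgroup H) ≠ 0 ∧ ∃ A : Subgroup H, A.FiniteIndex ∧ ⁅A, A⁆ ≤ M := by
  have hfg := hH.fg
  have hK : (albKer H).FG := by
    have h1 := hH.albanese ⊤ inferInstance
    exact albKer_fg_equiv Subgroup.topEquiv h1
  have hKfg : Group.FG (albKer H) := (Group.fg_iff_subgroup_fg _).2 hK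
  have hfab : FAb (albKer H) := fun L hL f =>
    albKer_fab hrep hinv Pool.Agent.N618.SG.t_CORE hsplit Pool.Agent.N615.SG.t_RES hH hK hm L hL f
  let f : albKer H →* H ⧸ M := (QuotientGroup.mk' M).comp (albKer H).subtype
  have hfin : Finite f.range := by
    refine finite_range hfsol hKfg hfab f (S.subgroupOf (albKer H)) inferInstance n ?_
    intro x hx
    have h1 : (x : H) ∈ (dser (S.subgroupOf (albKer H)) n).map (albKer H).subtype := ⟨x, hx, rfl⟩
    rw [dser_map, Subgroup.subgroupOf_map_subtype] at h1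
    have h2 : (x : H) ∈ M := hn (dser_mono inf_le_left n h1)
    rw [MonoidHom.mem_ker]
    exact (QuotientGroup.eq_one_iff (x : H)).2 h2
  have hcomm : ∀ a b : H ⧸ M, a * b * a⁻¹ * b⁻¹ ∈ f.range := by
    intro a b
    obtain ⟨g, rfl⟩ := QuotientGroup.mk_surjective a
    obtain ⟨h, rfl⟩ := QuotientGroup.mk_surjective b
    exact ⟨⟨g * h * g⁻¹ * h⁻¹, comm_mem_albKer g h⟩, rfl⟩
  have hQfg : Group.FG (H ⧸ M) := QuotientGroup.fg M
  have hc := hcen (H ⧸ M) hQfg f.range hfin hcomm
  constructor
  · set W : Subgroup H := ⁅(⊤ : Subgroup H), (⊤ : Subgroup H)⁆ with hW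
    have h1 : M.relIndex W = Nat.card (W.map (QuotientGroup.mk' M)) := by
      have h2 := Subgroup.relIndex_ker W (QuotientGroup.mk' M)
      rw [QuotientGroup.ker_mk'] at h2
      exact h2
    rw [h1]
    have h3 : W.map (QuotientGroup.mk' M) ≤ f.range := by
      rw [hW, Subgroup.map_commutator, Subgroup.commutator_le]
      intro a _ b _
      exact hcomm a b
    have h4 : Finite (W.map (QuotientGroup.mk' M)) :=
      Finite.of_injective (Subgroup.inclusion h3) (Subgroup.inclusion_injective h3)
    exact Nat.card_pos.ne'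
  · refine ⟨(Subgroup.center (H ⧸ M)).comap (QuotientGroup.mk' M),
      Pool.Agent.K6.H86.QS.comap_fi _ hc, ?_⟩
    rw [Subgroup.commutator_le]
    intro a ha b _
    rw [← QuotientGroup.eq_one_iff (N := M), commutatorElement_def]
    have h1 := Subgroup.mem_center_iff.1 ha (b : H ⧸ M)
    change ((b : H ⧸ M) * (a : H ⧸ M)) = (a : H ⧸ M) * (b : H ⧸ M) at h1
    change (a : H ⧸ M) * (b : H ⧸ M) * (a : H ⧸ M)⁻¹ * (b : H ⧸ M)⁻¹ = 1
    rw [← h1, mul_assoc (b : H ⧸ M), mul_inv_cancel, mul_one, mul_inv_cancel]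

end Pool.Agent.K6.H77.KT
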