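import Pool.Agent.K6.H77.KT.Good

/-!
# Project KT (helper77): closures of subgroups
-/

set_option autoImplicit false

namespace Pool.Agent.K6.H77.KT

open Topology

open scoped commutatorElement

section

variable {P : Type} [Group P] [TopologicalSpace P] [IsTopologicalGroup P]

/-- The closure of a subgroup. -/
abbrev cl (A : Subgroup P) : Subgroup P := A.topologicalClosure

theorem le_cl (A : Subgroup P) : A ≤ cl A := A.le_topologicalClosure

theorem cl_min {A C : Subgroup P} (h : A ≤ C) (hC : IsClosed (C : Set P)) : cl A ≤ C :=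
  A.topologicalClosure_minimal h hC

theorem cl_closed (A : Subgroup P) : IsClosed ((cl A : Subgroup P) : Set P) :=
  A.isClosed_topologicalClosure

theorem cl_mono {A B : Subgroup P} (h : A ≤ B) : cl A ≤ cl B :=
  cl_min (h.trans (le_cl B)) (cl_closed B)

theorem comm_closure {A B C : Subgroup P} (h : ⁅A, B⁆ ≤ C) : ⁅cl A, cl B⁆ ≤ cl C := by
  rw [Subgroup.commutator_le]
  intro a ha b hb
  have hc : Continuous (Function.uncurry fun x y : P => ⁅x, y⁆) := by
    have : (Function.uncurry fun x y : P => ⁅x, y⁆) =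
        fun p : P × P => p.1 * p.2 * p.1⁻¹ * p.2⁻¹ := by
      funext p
      rfl
    rw [this]
    fun_prop
  exact map_mem_closure₂ hc ha hb fun x hx y hy =>
    h (Subgroup.commutator_mem_commutator hx hy)

theorem dser_closure (S : Subgroup P) (n : ℕ) : dser (cl S) n ≤ cl (dser S n) := by
  induction n with
  | zero => exact le_rfl
  | succ n ih => exact (Subgroup.commutator_mono ih ih).trans (comm_closure le_rfl)

/-- If `C` is closed and has finite index in `B`, it has finite index in the closure of `B`. -/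
theorem relIndex_closure {C B : Subgroup P} (hC : IsClosed (C : Set P)) (h : C.relIndex B ≠ 0) :
    C.relIndex (cl B) ≠ 0 := by
  have h1 : (C.subgroupOf B).FiniteIndex := ⟨h⟩
  have h2 : Finite (B ⧸ C.subgroupOf B) := Subgroup.finite_quotient_of_finiteIndex
  let X : Set P := ⋃ q : B ⧸ C.subgroupOf B, (fun x => (q.out : P)⁻¹ * x) ⁻¹' (C : Set P)
  have hX : IsClosed X := isClosed_iUnion_of_finite fun q =>
    hC.preimage (continuous_const.mul continuous_id)
  have hBX : (B : Set P) ⊆ X := by
    intro b hb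
    refine Set.mem_iUnion.2 ⟨((⟨b, hb⟩ : B) : B ⧸ C.subgroupOf B), ?_⟩
    have h3 : ((((⟨b, hb⟩ : B) : B ⧸ C.subgroupOf B).out : B) : B ⧸ C.subgroupOf B) =
        ((⟨b, hb⟩ : B) : B ⧸ C.subgroupOf B) := Quotient.out_eq' _
    have h4 := QuotientGroup.eq.1 h3
    exact h4
  have hcX : ((cl B : Subgroup P) : Set P) ⊆ X := closure_minimal hBX hX
  let f : B ⧸ C.subgroupOf B → (cl B) ⧸ C.subgroupOf (cl B) :=
    fun q => ((⟨(q.out : P), le_cl B q.out.2⟩ : (cl B : Subgroup P)) :
      (cl B) ⧸ C.subgroupOf (cl B))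
  have hf : Function.Surjective f := by
    intro y
    obtain ⟨x, rfl⟩ := QuotientGroup.mk_surjective y
    obtain ⟨q, hq⟩ := Set.mem_iUnion.1 (hcX x.2)
    exact ⟨q, QuotientGroup.eq.2 hq⟩
  have h4 : Finite ((cl B) ⧸ C.subgroupOf (cl B)) := Finite.of_surjective f hf
  have h5 : (C.subgroupOf (cl B)).FiniteIndex := Subgroup.finiteIndex_of_finite_quotient
  exact h5.index_ne_zero

/-- The closure of the image of a subgroup of finite index. -/
theorem closure_fi {G : Type} [Group G] {f : G →* P} (hf : DenseRange f) {A : Subgroup G}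
    (hA : A.FiniteIndex) : (cl (A.map f)).FiniteIndex := by
  have h1 : (A.map f).relIndex f.range ≠ 0 := by
    rw [MonoidHom.range_eq_map, Subgroup.relIndex_map_map]
    have h4 : (A ⊔ f.ker).FiniteIndex := Subgroup.finiteIndex_of_le le_sup_left
    rw [top_sup_eq, Subgroup.relIndex_top_right]
    exact h4.index_ne_zero
  have h2 : (cl (A.map f)).relIndex f.range ≠ 0 := fun h =>
    h1 (Subgroup.relIndex_eq_zero_of_le_left (le_cl _) h)
  have h3 := relIndex_closure (cl_closed (A.map f)) h2
  have h4 : cl f.range = ⊤ := by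
    rw [eq_top_iff]
    intro x _
    exact hf x
  rw [h4, Subgroup.relIndex_top_right] at h3
  exact ⟨h3⟩

theorem closure_open {G : Type} [Group G] {f : G →* P} (hf : DenseRange f) {A : Subgroup G}
    (hA : A.FiniteIndex) : IsOpen ((cl (A.map f) : Subgroup P) : Set P) := by
  have := closure_fi hf hA
  exact Subgroup.isOpen_of_isClosed_of_finiteIndex _ (cl_closed _)

/-- An open subgroup in the closure of the image of `A` is in the closure of the image of its
inverse image in `A`. -/
theorem open_le {G : Type} [Group G] (f : G →* P) {A : Subgroup G} {P' : Subgroup P}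
    (hP : IsOpen (P' : Set P)) (hle : P' ≤ cl (A.map f)) :
    P' ≤ cl ((A ⊓ P'.comap f).map f) := by
  intro p hp
  change p ∈ closure (((A ⊓ P'.comap f).map f : Subgroup P) : Set P)
  rw [mem_closure_iff]
  intro U hU hpU
  have h1 : p ∈ closure ((A.map f : Subgroup P) : Set P) := hle hp
  rw [mem_closure_iff] at h1
  obtain ⟨x, ⟨hxU, hxP⟩, g, hg, rfl⟩ := h1 (U ∩ P') (hU.inter hP) ⟨hpU, hp⟩
  exact ⟨f g, hxU, g, ⟨hg, hxP⟩, rfl⟩

/-- An open subgroup whose inverse image under a homomorphism with dense image has finite index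
has finite index. -/
theorem open_fi {G : Type} [Group G] {f : G →* P} (hf : DenseRange f) {P' : Subgroup P}
    (hP : IsOpen (P' : Set P)) (h : (P'.comap f).FiniteIndex) : P'.FiniteIndex := by
  have h1 := closure_fi hf h
  have h2 : cl ((P'.comap f).map f) ≤ P' :=
    cl_min (Subgroup.map_comap_le f P') (P'.isClosed_of_isOpen hP)
  exact Subgroup.finiteIndex_of_le h2

theorem conj_closure {A C : Subgroup P} (h : ∀ a ∈ A, ∀ c ∈ C, a * c * a⁻¹ ∈ C) :
    ∀ a ∈ cl A, ∀ c ∈ cl C, a * c * a⁻¹ ∈ cl C := by
  intro a ha c hc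
  have hcont : Continuous (Function.uncurry fun x y : P => x * y * x⁻¹) := by
    have : (Function.uncurry fun x y : P => x * y * x⁻¹) =
        fun p : P × P => p.1 * p.2 * p.1⁻¹ := by
      funext p
      rfl
    rw [this]
    fun_prop
  exact map_mem_closure₂ (f := fun x y : P => x * y * x⁻¹) hcont ha hc
    fun x hx y hy => h x hx y hy

end

/-- The comparison of the three fundamental groups: `ι : G → P` from the topological fundamental
group of the complex variety to the étale fundamental group, `j : Γ → P` from the tempered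
fundamental group. -/
structure Comparison {G P Γ : Type} [Group G] [Group P] [TopologicalSpace P] [Group Γ]
    [TopologicalSpace Γ] (ι : G →* P) (j : Γ →* P) : Prop where
  dense_ι : DenseRange ι
  dense_j : DenseRange j
  cont_j : Continuous j
  open_sub : ∀ H : Subgroup Γ, IsOpen (H : Set Γ) → H.FiniteIndex →
    ∃ P' : Subgroup P, IsOpen (P' : Set P) ∧ P'.comap j = H
  basis : ∀ U ∈ 𝓝 (1 : Γ), ∃ N : Subgroup Γ, ∃ _ : N.Normal, IsOpen (N : Set Γ) ∧
    (N : Set Γ) ⊆ U ∧ Group.FG (Γ ⧸ N)

end Pool.Agent.K6.H77.KT
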