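import Pool.Agent.K6.H77.KT.Top1

/-!
# Project KT (helper77): closed normal subgroups with virtually solvable quotient are closed in the
profinite topology
-/

set_option autoImplicit false

namespace Pool.Agent.K6.H77.KT

open Topology

open scoped commutatorElement

theorem map_fi {G K : Type} [Group G] [Group K] {f : G →* K} (hf : Function.Surjective f)
    {A : Subgroup G} (hA : A.FiniteIndex) : (A.map f).FiniteIndex := by
  refine ⟨fun h => ?_⟩
  have h1 := Subgroup.index_map_dvd A hf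
  rw [h, zero_dvd_iff] at h1
  exact hA.index_ne_zero h1

/-- An element of `H` which is not in the closed subgroup `D` is not in `D N` for some small
open normal subgroup `N`. -/
theorem exists_small {Γ : Type} [Group Γ] [TopologicalSpace Γ] [IsTopologicalGroup Γ]
    (hb : ∀ U ∈ 𝓝 (1 : Γ), ∃ N : Subgroup Γ, ∃ _ : N.Normal, IsOpen (N : Set Γ) ∧
      (N : Set Γ) ⊆ U ∧ Group.FG (Γ ⧸ N)) {D : Subgroup Γ} (hD : IsClosed (D : Set Γ))
    {z : Γ} (hz : z ∉ D) (H : Subgroup Γ) (hH : IsOpen (H : Set Γ)) :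
    ∃ N : Subgroup Γ, ∃ _ : N.Normal, IsOpen (N : Set Γ) ∧ N ≤ H ∧
      Group.FG (Γ ⧸ N) ∧ ∀ n ∈ N, z * n ∉ D := by
  have h1 : (fun x : Γ => z * x) ⁻¹' (D : Set Γ)ᶜ ∈ 𝓝 (1 : Γ) := by
    refine (hD.isOpen_compl.preimage (continuous_const.mul continuous_id)).mem_nhds ?_
    change z * 1 ∈ (D : Set Γ)ᶜ
    rw [mul_one]
    exact hz
  have h2 : (H : Set Γ) ∈ 𝓝 (1 : Γ) := hH.mem_nhds H.one_mem
  obtain ⟨N, hN, hNo, hNU, hNf⟩ := hb _ (Filter.inter_mem h1 h2)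
  exact ⟨N, hN, hNo, fun x hx => (hNU hx).2, hNf, fun n hn => (hNU hn).1⟩

theorem lemR (hall : S_HALL) {Γ P : Type} [Group Γ] [TopologicalSpace Γ] [IsTopologicalGroup Γ]
    [Group P] [TopologicalSpace P] (j : Γ →* P)
    (ho : ∀ H : Subgroup Γ, IsOpen (H : Set Γ) → H.FiniteIndex →
      ∃ P' : Subgroup P, IsOpen (P' : Set P) ∧ P'.comap j = H)
    (hb : ∀ U ∈ 𝓝 (1 : Γ), ∃ N : Subgroup Γ, ∃ _ : N.Normal, IsOpen (N : Set Γ) ∧
      (N : Set Γ) ⊆ U ∧ Group.FG (Γ ⧸ N))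
    {H D S A : Subgroup Γ} (hHo : IsOpen (H : Set Γ)) (hH : H.FiniteIndex)
    (hD : IsClosed (D : Set Γ)) (hDn : ∀ h ∈ H, ∀ d ∈ D, h * d * h⁻¹ ∈ D)
    (hS : S.FiniteIndex) (n : ℕ) (hn : dser S n ≤ D) (hA : A.FiniteIndex)
    (C : Subgroup P) (hC : ∀ P' : Subgroup P, IsOpen (P' : Set P) → D ≤ P'.comap j → C ≤ P')
    (hDC : ∀ d ∈ D, d ∈ H)
    (hAC : ∀ x ∈ ⁅A, A⁆, j x ∈ C) : ∀ z ∈ H, j z ∈ C → z ∈ D := by
  intro z hzH hzC
  by_contra hzD
  obtain ⟨N, hN, hNo, hNH, hNf, hNz⟩ := exists_small hb hD hzD H hHo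
  -- the group `T = H / D N`
  let q : Γ →* Γ ⧸ N := QuotientGroup.mk' N
  have hqs : Function.Surjective q := QuotientGroup.mk'_surjective N
  let Hq : Subgroup (Γ ⧸ N) := H.map q
  let Dq : Subgroup (Γ ⧸ N) := D.map q
  have hHq : Hq.FiniteIndex := map_fi hqs hH
  have hHqf : Group.FG Hq := Subgroup.fg_of_index_ne_zero Hq
  have hnorm : (Dq.subgroupOf Hq).Normal := by
    refine ⟨fun x hx y => ?_⟩
    obtain ⟨d, hd, hdx⟩ := hx
    obtain ⟨h, hh, hhy⟩ := y.2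
    refine ⟨h * d * h⁻¹, hDn h hh d hd, ?_⟩
    rw [map_mul, map_mul, map_inv, hdx, hhy]
    rfl
  let p : Hq →* Hq ⧸ Dq.subgroupOf Hq := QuotientGroup.mk' _
  let s : H →* Hq := q.subgroupMap H
  let π : H →* Hq ⧸ Dq.subgroupOf Hq := p.comp s
  have hπs : Function.Surjective π :=
    (QuotientGroup.mk'_surjective _).comp (q.subgroupMap_surjective H)
  have hTf : Group.FG (Hq ⧸ Dq.subgroupOf Hq) := QuotientGroup.fg _
  have hπ1 : ∀ x : H, π x = 1 ↔ ∃ d ∈ D, q d = q x := by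
    intro x
    change ((s x : Hq) : Hq ⧸ Dq.subgroupOf Hq) = 1 ↔ _
    rw [QuotientGroup.eq_one_iff]
    exact Iff.rfl
  have hπD : ∀ x : H, (x : Γ) ∈ D → π x = 1 := fun x hx => (hπ1 x).2 ⟨x, hx, rfl⟩
  -- the key property of normal subgroups of finite index
  have key : ∀ M : Subgroup (Hq ⧸ Dq.subgroupOf Hq), M.Normal → M.FiniteIndex →
      ∀ x : H, j x ∈ C → π x ∈ M := by
    intro M _ hM x hx
    let M' : Subgroup Γ := (M.comap π).map H.subtype
    have hM' : M'.FiniteIndex := Pool.Agent.N212.SG.map_finiteIndex hH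
      (Pool.Agent.K6.H86.QS.comap_fi π hM)
    have hNM : N ≤ M' := by
      intro y hy
      refine ⟨⟨y, hNH hy⟩, ?_, rfl⟩
      have h1 : π ⟨y, hNH hy⟩ = 1 := (hπ1 _).2 ⟨1, D.one_mem, by
        rw [map_one]
        exact ((QuotientGroup.eq_one_iff y).2 hy).symm⟩
      change π ⟨y, hNH hy⟩ ∈ M
      rw [h1]
      exact M.one_mem
    have hM'o : IsOpen (M' : Set Γ) := Subgroup.isOpen_mono hNM hNo
    obtain ⟨PM, hPMo, hPM⟩ := ho M' hM'o hM'
    have hDM : D ≤ M' := by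
      intro y hy
      refine ⟨⟨y, hDC y hy⟩, ?_, rfl⟩
      change π ⟨y, hDC y hy⟩ ∈ M
      rw [hπD _ hy]
      exact M.one_mem
    have h2 : C ≤ PM := hC PM hPMo (hPM ▸ hDM)
    have h3 : (x : Γ) ∈ M' := by
      rw [← hPM]
      exact h2 hx
    obtain ⟨y, hy, hyx⟩ := h3
    have h4 : y = x := Subtype.ext hyx
    exact h4 ▸ hy
  -- apply HALL
  have h1 := hall (Hq ⧸ Dq.subgroupOf Hq) hTf ((S.subgroupOf H).map π)
    (map_fi hπs inferInstance) ⟨n, by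
      rw [← dser_map, eq_bot_iff]
      rintro _ ⟨x, hx, rfl⟩
      rw [Subgroup.mem_bot]
      apply hπD
      have h2 : (x : Γ) ∈ (dser (S.subgroupOf H) n).map H.subtype := ⟨x, hx, rfl⟩
      rw [dser_map, Subgroup.subgroupOf_map_subtype] at h2
      exact hn (dser_mono inf_le_left n h2)⟩
    ((A.subgroupOf H).map π) (map_fi hπs inferInstance) (by
      intro M hM hMf
      rw [← Subgroup.map_commutator]
      rintro _ ⟨x, hx, rfl⟩
      apply key M hM hMf x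
      apply hAC
      have h2 : (x : Γ) ∈ (⁅A.subgroupOf H, A.subgroupOf H⁆).map H.subtype := ⟨x, hx, rfl⟩
      rw [Subgroup.map_commutator, Subgroup.subgroupOf_map_subtype] at h2
      exact Subgroup.commutator_mono inf_le_left inf_le_left h2)
    (π ⟨z, hzH⟩) (fun M hM hMf => key M hM hMf ⟨z, hzH⟩ hzC)
  obtain ⟨d, hd, hdz⟩ := (hπ1 _).1 h1
  have h2 : z⁻¹ * d ∈ N := QuotientGroup.eq.1 (hdz.symm : (z : Γ ⧸ N) = (d : Γ ⧸ N))
  apply hNz _ h2
  rw [mul_inv_cancel_left]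
  exact hd

end Pool.Agent.K6.H77.KT
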