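import Pool.Agent.K6.H77.KT.Top2

/-!
# Project KT (helper77): virtually solvable quotients of the tempered fundamental group
-/

set_option autoImplicit false

namespace Pool.Agent.K6.H77.KT

open Topology

open scoped commutatorElement

variable {G P Γ : Type} [Group G] [Group P] [TopologicalSpace P] [IsTopologicalGroup P]
  [Group Γ] [TopologicalSpace Γ] [IsTopologicalGroup Γ]

theorem main_step (hall : S_HALL) {ι : G →* P} {j : Γ →* P} (hc : Comparison ι j)
    {G₀ : Subgroup G} (hG₀ : G₀.FiniteIndex)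
    (hgood : ∀ H : Subgroup G, H ≤ G₀ → H.FiniteIndex → GoodSub H)
    {H D S : Subgroup Γ} (hHo : IsOpen (H : Set Γ)) (hH : H.FiniteIndex)
    (hH₀ : H ≤ (cl (G₀.map ι)).comap j) (hD : IsClosed (D : Set Γ)) (hDH : D ≤ H)
    (hDn : ∀ h ∈ H, ∀ d ∈ D, h * d * h⁻¹ ∈ D) (hSH : S ≤ H) (hS : S.FiniteIndex) (n : ℕ)
    (hn : dser S n ≤ D) :
    D.relIndex ⁅H, H⁆ ≠ 0 ∧ ∃ A : Subgroup Γ, A ≤ H ∧ IsOpen (A : Set Γ) ∧ A.FiniteIndex ∧
      ⁅A, A⁆ ≤ D := by
  have hHc : IsClosed (H : Set Γ) := H.isClosed_of_isOpen hHo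
  -- the open subgroup `PH`
  obtain ⟨PH0, hPH0o, hPH0⟩ := hc.open_sub H hHo hH
  have hP₀o : IsOpen ((cl (G₀.map ι) : Subgroup P) : Set P) := closure_open hc.dense_ι hG₀
  let PH : Subgroup P := PH0 ⊓ cl (G₀.map ι)
  have hPHo : IsOpen (PH : Set P) := hPH0o.inter hP₀o
  have hPHH : PH.comap j = H := by
    change (PH0 ⊓ cl (G₀.map ι)).comap j = H
    rw [Subgroup.comap_inf, hPH0]
    exact inf_eq_left.2 hH₀
  have hPHc : IsClosed (PH : Set P) := PH.isClosed_of_isOpen hPHo
  have hPHf : PH.FiniteIndex := open_fi hc.dense_j hPHo (by rw [hPHH]; exact hH)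
  have htop : ∀ {K : Type} [Group K] (f : K →* P), DenseRange f →
      ∀ P' : Subgroup P, IsOpen (P' : Set P) → P' ≤ cl ((P'.comap f).map f) := by
    intro K _ f hf P' hP'
    have h1 := open_le f (A := ⊤) hP' (fun x _ => by
      change x ∈ closure (((⊤ : Subgroup K).map f : Subgroup P) : Set P)
      rw [← MonoidHom.range_eq_map]
      exact hf x)
    rwa [top_inf_eq] at h1
  have hPHcl : PH ≤ cl (H.map j) := by
    have h1 := htop j hc.dense_j PH hPHo
    rwa [hPHH] at h1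
  -- the closed normal subgroup `C`
  let C : Subgroup P := cl (D.map j)
  have hCc : IsClosed (C : Set P) := cl_closed _
  have hCPH : C ≤ PH := cl_min (by
    rw [Subgroup.map_le_iff_le_comap, hPHH]
    exact hDH) hPHc
  have hCn : ∀ x ∈ PH, ∀ c ∈ C, x * c * x⁻¹ ∈ C := by
    intro x hx c hcC
    refine conj_closure (A := H.map j) (C := D.map j) ?_ x (hPHcl hx) c hcC
    rintro _ ⟨h, hh, rfl⟩ _ ⟨d, hd, rfl⟩
    exact ⟨h * d * h⁻¹, hDn h hh d hd, by rw [map_mul, map_mul, map_inv]⟩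
  -- the closure of `S`
  let S' : Subgroup Γ := cl S
  have hS'H : S' ≤ H := cl_min hSH hHc
  have hS'f : S'.FiniteIndex := Subgroup.finiteIndex_of_le (le_cl S)
  have hS'o : IsOpen (S' : Set Γ) := Subgroup.isOpen_of_isClosed_of_finiteIndex _ (cl_closed S)
  have hS'n : dser S' n ≤ D := (dser_closure S n).trans (cl_min hn hD)
  obtain ⟨PS, hPSo, hPS⟩ := hc.open_sub S' hS'o hS'f
  have hPSf : PS.FiniteIndex := open_fi hc.dense_j hPSo (by rw [hPS]; exact hS'f)
  have hPSn : dser PS n ≤ C := by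
    have h1 : PS ≤ cl (S'.map j) := by
      have h2 := htop j hc.dense_j PS hPSo
      rwa [hPS] at h2
    refine (dser_mono h1 n).trans ((dser_closure _ n).trans (cl_mono ?_))
    rw [← dser_map]
    exact Subgroup.map_mono hS'n
  -- the subgroups of `G`
  let GH : Subgroup G := G₀ ⊓ PH.comap ι
  have hGHf : GH.FiniteIndex := by
    have h1 : (PH.comap ι).FiniteIndex := Pool.Agent.K6.H86.QS.comap_fi ι hPHf
    exact inferInstanceAs (G₀ ⊓ PH.comap ι).FiniteIndex
  have hPHG : PH ≤ cl (GH.map ι) := open_le ι hPHo inf_le_right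
  let M : Subgroup G := GH ⊓ C.comap ι
  let SG : Subgroup G := GH ⊓ PS.comap ι
  have hSGf : SG.FiniteIndex := by
    have h1 : (PS.comap ι).FiniteIndex := Pool.Agent.K6.H86.QS.comap_fi ι hPSf
    exact inferInstanceAs (GH ⊓ PS.comap ι).FiniteIndex
  obtain ⟨h1, A, hAGH, hAf, hAM⟩ := hgood GH inf_le_left hGHf M SG n inf_le_left (by
    intro h hh m hm
    refine ⟨GH.mul_mem (GH.mul_mem hh hm.1) (GH.inv_mem hh), ?_⟩
    change ι (h * m * h⁻¹) ∈ C
    rw [map_mul, map_mul, map_inv]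
    exact hCn _ hh.2 _ hm.2) inf_le_left hSGf (by
    refine le_inf ((dser_le SG n).trans inf_le_left) ?_
    rw [← Subgroup.map_le_iff_le_comap, dser_map]
    refine (dser_mono ?_ n).trans hPSn
    rw [Subgroup.map_le_iff_le_comap]
    exact inf_le_right)
  -- the closure of the image of `A`
  let PA : Subgroup P := cl (A.map ι)
  have hPAo : IsOpen (PA : Set P) := closure_open hc.dense_ι hAf
  have hPAf : PA.FiniteIndex := closure_fi hc.dense_ι hAf
  have hPAC : ⁅PA, PA⁆ ≤ C := by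
    refine (comm_closure (A := A.map ι) (B := A.map ι) (C := C) ?_).trans (cl_min le_rfl hCc)
    rw [← Subgroup.map_commutator, Subgroup.map_le_iff_le_comap]
    exact hAM.trans inf_le_right
  let A' : Subgroup Γ := PA.comap j
  have hA'f : A'.FiniteIndex := Pool.Agent.K6.H86.QS.comap_fi j hPAf
  have hA'o : IsOpen (A' : Set Γ) := hPAo.preimage hc.cont_j
  have hA'H : A' ≤ H := by
    rw [← hPHH]
    refine Subgroup.comap_mono (cl_min ?_ hPHc)
    rw [Subgroup.map_le_iff_le_comap]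
    exact hAGH.trans inf_le_right
  have hA'C : ∀ x ∈ ⁅A', A'⁆, j x ∈ C := by
    intro x hx
    have h2 : j x ∈ (⁅A', A'⁆).map j := ⟨x, hx, rfl⟩
    rw [Subgroup.map_commutator] at h2
    exact hPAC (Subgroup.commutator_mono (Subgroup.map_comap_le j PA)
      (Subgroup.map_comap_le j PA) h2)
  have hR := lemR hall j hc.open_sub hc.basis hHo hH hD hDn hS n hn hA'f C
    (fun P' hP' hDP => cl_min (Subgroup.map_le_iff_le_comap.2 hDP) (P'.isClosed_of_isOpen hP'))
    (fun d hd => hDH hd) hA'C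
  constructor
  · -- the commutator subgroup
    have h2 : (C.comap ι).relIndex ⁅GH, GH⁆ ≠ 0 := fun h =>
      h1 (Subgroup.relIndex_eq_zero_of_le_left inf_le_right h)
    rw [Subgroup.relIndex_comap] at h2
    have h3 := relIndex_closure hCc h2
    have h4 : ⁅PH, PH⁆ ≤ cl ((⁅GH, GH⁆).map ι) := by
      refine (Subgroup.commutator_mono hPHG hPHG).trans (comm_closure ?_)
      rw [Subgroup.map_commutator]
    have h5 : C.relIndex ⁅PH, PH⁆ ≠ 0 := fun h =>
      h3 (Subgroup.relIndex_eq_zero_of_le_right h4 h)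
    have h6 : (⁅H, H⁆).map j ≤ ⁅PH, PH⁆ := by
      rw [Subgroup.map_commutator]
      have h7 : H.map j ≤ PH := by
        rw [Subgroup.map_le_iff_le_comap, hPHH]
      exact Subgroup.commutator_mono h7 h7
    have h8 : (C.comap j).relIndex ⁅H, H⁆ ≠ 0 := by
      rw [Subgroup.relIndex_comap]
      exact fun h => h5 (Subgroup.relIndex_eq_zero_of_le_right h6 h)
    have h9 : ⁅H, H⁆ ≤ H := Subgroup.commutator_le_self H
    have h10 : C.comap j ⊓ ⁅H, H⁆ ≤ D := fun x hx => hR x (h9 hx.2) hx.1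
    intro h
    apply h8
    rw [← Subgroup.inf_relIndex_right]
    exact Subgroup.relIndex_eq_zero_of_le_left h10 h
  · refine ⟨A', hA'H, hA'o, hA'f, fun x hx => hR x ?_ (hA'C x hx)⟩
    have h9 : ⁅A', A'⁆ ≤ A' := Subgroup.commutator_le_self A'
    exact hA'H (h9 hx)

end Pool.Agent.K6.H77.KT
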