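import Pool.Agent.K6.H77.KT.Free

/-!
# Project KT (helper77): the étale fundamental group and virtually solvable groups
-/

set_option autoImplicit false

namespace Pool.Agent.K6.H77.KT

open Topology

variable {G P Γ : Type} [Group G] [Group P] [TopologicalSpace P] [IsTopologicalGroup P]
  [Group Γ] [TopologicalSpace Γ] [IsTopologicalGroup Γ]

theorem solvable_of_dser {Q : Type} [Group Q] {A : Subgroup Q} {n : ℕ} (h : dser A n = ⊥) :
    Group.IsSolvable A := by
  refine ⟨n, ?_⟩
  have h1 : ∀ m, dser (⊤ : Subgroup A) m = derivedSeries A m := by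
    intro m
    induction m with
    | zero => rfl
    | succ m ih =>
      change ⁅dser (⊤ : Subgroup A) m, dser (⊤ : Subgroup A) m⁆ = _
      rw [ih, derivedSeries_succ]
  have h2 : (dser (⊤ : Subgroup A) n).map A.subtype = dser A n := by
    rw [dser_map, ← MonoidHom.range_eq_map, Subgroup.range_subtype]
  rw [h, h1] at h2
  exact (Subgroup.map_eq_bot_iff_of_injective _ A.subtype_injective).1 h2

/-- If `f` has dense image and its source is virtually solvable, then its target is. -/
theorem dense_solvable [T2Space P] {K : Type} [Group K] {f : K →* P} (hf : DenseRange f)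
    (h : VirtSolvable K) : VirtSolvable P := by
  obtain ⟨S, hS, hSs⟩ := h
  obtain ⟨n, hn⟩ := dser_eq_bot hSs
  refine ⟨cl (S.map f), closure_fi hf hS, ?_⟩
  refine solvable_of_dser (n := n) (le_bot_iff.1 ?_)
  refine (dser_closure _ n).trans (cl_min ?_ ?_)
  · rw [← dser_map, hn, Subgroup.map_bot]
  · rw [Subgroup.coe_bot]
    exact isClosed_singleton

/-- There is a basis of neighbourhoods of the identity of `Γ` which consists of open normal
subgroups with residually finite quotients. -/
def ResFiniteBasis (Γ : Type) [Group Γ] [TopologicalSpace Γ] : Prop :=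
  ∀ U ∈ 𝓝 (1 : Γ), ∃ N : Subgroup Γ, ∃ _ : N.Normal, IsOpen (N : Set Γ) ∧
    (N : Set Γ) ⊆ U ∧ Group.ResiduallyFinite (Γ ⧸ N)

theorem VirtAbelian.solvable {Q : Type} [Group Q] (h : VirtAbelian Q) : VirtSolvable Q := by
  obtain ⟨A, hA, hAa⟩ := h
  refine ⟨A, hA, solvable_of_dser (n := 1) (le_bot_iff.1 ?_)⟩
  change ⁅A, A⁆ ≤ ⊥
  rw [Subgroup.commutator_le]
  intro a ha b hb
  rw [Subgroup.mem_bot, commutatorElement_eq_one_iff_mul_comm]
  exact hAa a ha b hb

/-- The equivalences in the residually finite case. -/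
theorem tfae [CompactSpace P] [TotallyDisconnectedSpace P] [T2Space P] [T2Space Γ] {ι : G →* P}
    {j : Γ →* P} (hG : IsKSpecialGroup G) (hc : Comparison ι j) (hr : ResFiniteBasis Γ) :
    [VirtAbelian Γ, VirtSolvable Γ, VirtAbelian P, VirtSolvable P].TFAE := by
  tfae_have 1 → 2 := VirtAbelian.solvable
  tfae_have 2 → 1 := all_solvable hG hc
  tfae_have 3 → 4 := VirtAbelian.solvable
  tfae_have 4 → 3 := etale_solvable hG hc.dense_ι
  tfae_have 1 ↔ 3 := iff_etale hc.dense_j hc.cont_j hc.open_sub hr
  tfae_finish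

end Pool.Agent.K6.H77.KT
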